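import Pool.Agent.Ff4.Key

/-!
Many classes modulo `h g ^ 4`.
-/

set_option autoImplicit false

namespace Pool.Agent.Ff4

open Polynomial Pool.Agent.Ff2 Pool.Agent.Ff3 UniqueFactorizationMonoid

variable {K : Type} [Field K] [Fintype K]

/-- A family of classes modulo `m₀`, in terms of fourth powers modulo `g ^ 4`. -/
structure Fam (L s₁ : ℕ) (g m₀ : K[X]) where
  w : (Fin s₁ → K) → K[X]
  c : (Fin s₁ → K) → K[X]
  inj : Function.Injective w
  degw : ∀ u, (w u).natDegree < g.natDegree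
  cong : ∀ u, g ^ 4 ∣ c u - w u ^ 4
  cop : ∀ u, IsCoprime (c u) m₀
  big : ∀ u (P : K[X]), Irreducible P → m₀ ∣ P - c u → 2 * L + 2 + 4 * g.natDegree ≤ P.natDegree

/-- First case: `k deg g` is odd. -/
theorem fam_odd {k : ℕ} (hK : Fintype.card K = 2 ^ k) {L s₁ : ℕ} {g : K[X]} (hg : g.Monic)
    (hr : ∀ t : K[X], Irreducible t → t ∣ g → L + 1 ≤ t.natDegree)
    (hcard : g.natDegree + (L + 1) < (L + 1) * Fintype.card K ^ (L + 1))
    (hdeg : (wL K L).natDegree + (L + 1) + s₁ + L + 1 ≤ g.natDegree)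
    (ho : Odd (k * g.natDegree)) : Nonempty (Fam L s₁ g (g ^ 4)) := by
  have hw := (deg K L).1
  obtain ⟨T, hT1, hT2, hT3⟩ := card_primes g hg.ne_zero (L + 1) hr
  have hTc : T.card < Fintype.card K ^ (L + 1) := by
    have : (L + 1) * T.card < (L + 1) * Fintype.card K ^ (L + 1) := by omega
    exact lt_of_mul_lt_mul_left this (Nat.zero_le _)
  obtain ⟨s, hs1, hs2⟩ := family (L + 1) s₁ (by omega) T (1 : K[X]) 0 one_ne_zero (by simp)
    (fun t ht => ⟨(hT2 t ht).1, fun _ => hr t (hT2 t ht).1 (hT2 t ht).2⟩) hTc isCoprime_one_right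
  have hsg : ∀ u, IsCoprime g (s u) := by
    intro u
    refine isCoprime_of_irreducible_dvd (fun h0 => hg.ne_zero h0.1) fun t ht h1 h2 => ?_
    obtain ⟨t', ht', ha⟩ := hT3 t ht h1
    exact (hs2 u).2.2.2 t' ht' (ha.symm.dvd.trans h2)
  have hs0 : ∀ u, s u ≠ 0 := by
    intro u h0
    have := (hs2 u).1
    rw [h0, natDegree_zero] at this
    omega
  have hcg : ∀ u, IsCoprime g (wL K L * s u) := fun u =>
    (coprime_wL L g hg.ne_zero hr).mul_right (hsg u)
  have hdw : ∀ u, (wL K L * s u).natDegree = (wL K L).natDegree + (L + 1 + s₁) := by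
    intro u
    rw [natDegree_mul hw.ne_zero (hs0 u), (hs2 u).1, natDegree_one, zero_add]
  refine ⟨⟨fun u => wL K L * s u, fun u => (wL K L * s u) ^ 4, ?_, ?_, ?_, ?_, ?_⟩⟩
  · intro u v h
    exact hs1 (mul_left_cancel₀ hw.ne_zero h)
  · intro u
    show (wL K L * s u).natDegree < _
    rw [hdw]
    omega
  · intro u
    exact ⟨0, by ring⟩
  · intro u
    exact (hcg u).symm.pow
  · intro u P hP hdv
    exact key_odd hK hg (mul_ne_zero hw.ne_zero (hs0 u)) (hcg u)
      (fun a ha haL => (lcm K L a ha haL).mul_right _) (by rw [hdw]; omega) ho hP hdv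

/-- Second case: `k deg g` is even, modulo `p ^ 2 g ^ 4`. -/
theorem fam_even {k : ℕ} (hK : Fintype.card K = 2 ^ k) {L s₁ n : ℕ} {g p : K[X]} (hg : g.Monic)
    (hp : Irreducible p) (hr : ∀ t : K[X], Irreducible t → t ∣ g → L + 1 ≤ t.natDegree)
    (hcard : g.natDegree + (L + 1) < (L + 1) * Fintype.card K ^ (L + 1)) (hn0 : n ≠ 0)
    (hn : g.natDegree + (wL K L).natDegree + n < Fintype.card K ^ n)
    (hdeg : (wL K L).natDegree + (n + L) + (L + 1) + s₁ + L + 1 ≤ g.natDegree)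
    (he : Even (k * g.natDegree)) : Nonempty (Fam L s₁ g (p ^ 2 * g ^ 4)) := by
  classical
  have hchar : CharP K 2 := red_charP K k hK
  have hK2 : 2 ∣ Fintype.card K := by
    have h1 : k ≠ 0 := by
      rintro rfl
      have := Fintype.one_lt_card (α := K)
      rw [hK] at this
      norm_num at this
    rw [hK]
    exact dvd_pow_self 2 h1
  have hw := (deg K L).1
  obtain ⟨W, hW0, hWw, hpW, hWa⟩ := exists_W L p hp
  -- the auxiliary prime
  obtain ⟨p₁, hp₁, hp₁n, hp₁g, hp₁W, hp₁p⟩ : ∃ p₁ : K[X], Irreducible p₁ ∧ p₁.natDegree ≤ n ∧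
      ¬ p₁ ∣ g ∧ ¬ p₁ ∣ wL K L ∧ ¬ p₁ ∣ p := by
    by_cases hpn : p.natDegree ≤ n
    · have h0 : g * wL K L * p ≠ 0 :=
        mul_ne_zero (mul_ne_zero hg.ne_zero hw.ne_zero) hp.ne_zero
      obtain ⟨p₁, h1, h2, h3⟩ := exists_prime hK2 (g * wL K L * p) h0 n hn0 (by
        rw [natDegree_mul (mul_ne_zero hg.ne_zero hw.ne_zero) hp.ne_zero,
          natDegree_mul hg.ne_zero hw.ne_zero]
        omega)
      refine ⟨p₁, h1, h2, fun h => h3 ?_, fun h => h3 ?_, fun h => h3 (h.mul_left _)⟩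
      · exact (h.mul_right _).mul_right _
      · exact (h.mul_left _).mul_right _
    · have h0 : g * wL K L ≠ 0 := mul_ne_zero hg.ne_zero hw.ne_zero
      obtain ⟨p₁, h1, h2, h3⟩ := exists_prime hK2 (g * wL K L) h0 n hn0 (by
        rw [natDegree_mul hg.ne_zero hw.ne_zero]
        omega)
      refine ⟨p₁, h1, h2, fun h => h3 (h.mul_right _), fun h => h3 (h.mul_left _), fun h => ?_⟩
      have h4 := natDegree_eq_of_degree_eq (degree_eq_degree_of_associated
        (h1.associated_of_dvd hp h))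
      omega
  -- the fourth root modulo the auxiliary prime
  obtain ⟨σ₀, hσ1, hσ2⟩ := fourth p₁ W (p * g ^ 4) hp₁ (fun h => hp₁W (h.trans hWw))
  have hσ3 : ¬ p₁ ∣ σ₀ := by
    intro h
    have h1 : p₁ ∣ (W * σ₀) ^ 4 := dvd_pow (h.mul_left _) (by norm_num)
    have h2 : p₁ ∣ p * g ^ 4 := (dvd_add_right h1).1 hσ2
    rcases hp₁.prime.dvd_or_dvd h2 with h3 | h3
    · exact hp₁p h3
    · exact hp₁g (hp₁.prime.dvd_of_dvd_pow h3)
  -- the cofactor `a`
  obtain ⟨a, ha0, haL, hap, hac⟩ : ∃ a : K[X], a ≠ 0 ∧ a.natDegree ≤ L ∧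
      (¬ p ∣ a → L + 1 ≤ p.natDegree) ∧ (∀ t : K[X], Irreducible t → t ∣ a → Associated t p) := by
    by_cases h : p.natDegree ≤ L
    · exact ⟨p, hp.ne_zero, h, fun h1 => absurd dvd_rfl h1,
        fun t ht h1 => ht.associated_of_dvd hp h1⟩
    · refine ⟨1, one_ne_zero, by simp, fun _ => by omega, fun t ht h1 => ?_⟩
      exact absurd (isUnit_of_dvd_one h1) ht.not_isUnit
  -- `σ`
  obtain ⟨σ, hσd, hσp, hσp₁, hσdv⟩ : ∃ σ : K[X], σ.natDegree ≤ p₁.natDegree ∧ ¬ p ∣ σ ∧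
      ¬ p₁ ∣ σ ∧ p₁ ∣ σ - σ₀ := by
    by_cases h : p ∣ σ₀
    · refine ⟨σ₀ + p₁, ?_, ?_, ?_, ⟨1, by ring⟩⟩
      · exact (natDegree_add_le _ _).trans (max_le hσ1.le le_rfl)
      · intro h1
        have h2 : p ∣ p₁ := (dvd_add_right h).1 h1
        exact hp₁p (hp.associated_of_dvd hp₁ h2).symm.dvd
      · intro h1
        exact hσ3 ((dvd_add_left dvd_rfl).1 h1)
    · exact ⟨σ₀, hσ1.le, h, hσ3, by simp⟩
  have hA0 : p₁ * a ≠ 0 := mul_ne_zero hp₁.ne_zero ha0
  have hAd : (p₁ * a).natDegree = p₁.natDegree + a.natDegree := natDegree_mul hp₁.ne_zero ha0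
  have hσA : IsCoprime σ (p₁ * a) := by
    refine isCoprime_of_irreducible_dvd (fun h0 => hA0 h0.2) fun t ht h1 h2 => ?_
    rcases ht.prime.dvd_or_dvd h2 with h3 | h3
    · exact hσp₁ ((ht.associated_of_dvd hp₁ h3).symm.dvd.trans h1)
    · exact hσp ((hac t ht h3).symm.dvd.trans h1)
  -- the family
  obtain ⟨T, hT1, hT2, hT3⟩ := card_primes g hg.ne_zero (L + 1) hr
  have hTc : (insert p T).card < Fintype.card K ^ (L + 1) := by
    have h1 := Finset.card_insert_le p T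
    have h2 : (L + 1) * (T.card + 1) < (L + 1) * Fintype.card K ^ (L + 1) := by
      rw [mul_add, mul_one]
      omega
    exact lt_of_le_of_lt h1 (lt_of_mul_lt_mul_left h2 (Nat.zero_le _))
  obtain ⟨s, hs1, hs2⟩ := family (L + 1) s₁ (by omega) (insert p T) (p₁ * a) σ hA0
    (by omega) (by
      intro t ht
      rcases Finset.mem_insert.1 ht with rfl | ht
      · exact ⟨hp, fun h => hap fun h1 => h (h1.mul_left _)⟩
      · exact ⟨(hT2 t ht).1, fun _ => hr t (hT2 t ht).1 (hT2 t ht).2⟩) hTc hσA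
  have hs0 : ∀ u, s u ≠ 0 := by
    intro u h0
    have := (hs2 u).1
    rw [h0, natDegree_zero] at this
    omega
  have hsg : ∀ u, IsCoprime g (s u) := by
    intro u
    refine isCoprime_of_irreducible_dvd (fun h0 => hg.ne_zero h0.1) fun t ht h1 h2 => ?_
    obtain ⟨t', ht', ha⟩ := hT3 t ht h1
    exact (hs2 u).2.2.2 t' (Finset.mem_insert_of_mem ht') (ha.symm.dvd.trans h2)
  have hps : ∀ u, ¬ p ∣ s u := fun u => (hs2 u).2.2.2 p (Finset.mem_insert_self _ _)
  have hcg : ∀ u, IsCoprime g (W * s u) := fun u =>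
    ((coprime_wL L g hg.ne_zero hr).of_isCoprime_of_dvd_right hWw).mul_right (hsg u)
  have hcp : ∀ u, IsCoprime p (W * s u) := by
    intro u
    refine (hp.coprime_iff_not_dvd).2 fun h => ?_
    rcases hp.prime.dvd_or_dvd h with h1 | h1
    · exact hpW h1
    · exact hps u h1
  have hWd : W.natDegree ≤ (wL K L).natDegree := natDegree_le_of_dvd hWw hw.ne_zero
  have hdw : ∀ u, (W * s u).natDegree = W.natDegree + (p₁.natDegree + a.natDegree +
      (L + 1 + s₁)) := by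
    intro u
    rw [natDegree_mul hW0 (hs0 u), (hs2 u).1, hAd]
  have hp₁s : ∀ u, p₁ ∣ (W * s u) ^ 4 + p * g ^ 4 := by
    intro u
    obtain ⟨x, hx⟩ := (hs2 u).2.1
    obtain ⟨y, hy⟩ := hσdv
    have h1 : s u = σ₀ + p₁ * (y + a * x) := by
      linear_combination hx + hy
    have h2 : p₁ ∣ (W * s u) ^ 4 - (W * σ₀) ^ 4 := by
      have h3 : W * s u - W * σ₀ ∣ (W * s u) ^ 4 - (W * σ₀) ^ 4 := sub_dvd_pow_sub_pow _ _ 4
      refine dvd_trans ?_ h3
      exact ⟨W * (y + a * x), by rw [h1]; ring⟩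
    have h3 := dvd_add h2 hσ2
    have h4 : (W * s u) ^ 4 - (W * σ₀) ^ 4 + ((W * σ₀) ^ 4 + p * g ^ 4) =
        (W * s u) ^ 4 + p * g ^ 4 := by ring
    rwa [h4] at h3
  refine ⟨⟨fun u => W * s u, fun u => (W * s u) ^ 4 + p * g ^ 4, ?_, ?_, ?_, ?_, ?_⟩⟩
  · intro u v h
    exact hs1 (mul_left_cancel₀ hW0 h)
  · intro u
    show (W * s u).natDegree < _
    rw [hdw]
    omega
  · intro u
    exact ⟨p, by ring⟩
  · intro u
    refine IsCoprime.mul_right (IsCoprime.pow_right ?_) (IsCoprime.pow_right ?_)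
    · exact (((hcp u).symm.pow_left (m := 4)).add_mul_left_left (g ^ 4))
    · have h1 : p * g ^ 4 = g * (p * g ^ 3) := by ring
      show IsCoprime ((W * s u) ^ 4 + p * g ^ 4) g
      rw [h1]
      exact (((hcg u).symm.pow_left (m := 4)).add_mul_left_left _)
  · intro u P hP hdv
    refine key_even hK hg (mul_ne_zero hW0 (hs0 u)) (hcg u)
      (fun a ha haL hac => (hWa a ha haL hac).mul_right _) (by rw [hdw]; omega) he hp hp₁
      (by omega) (hp₁s u) hP hdv

/-- From `m₀` to the modulus `h g ^ 4`. -/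
theorem fam_cls [CharP K 2] {L s₁ : ℕ} {g h m₀ : K[X]} (hg : g.Monic) (hh : h ≠ 0)
    (hm₀ : m₀ ∣ h * g ^ 4) (hm₁ : g ^ 4 ∣ m₀) (F : Fam L s₁ g m₀) :
    ∃ C : Finset K[X], C.card = Fintype.card K ^ s₁ ∧ ∀ c ∈ C,
      c.natDegree < (h * g ^ 4).natDegree ∧ IsCoprime c (h * g ^ 4) ∧
      ∀ P : K[X], Irreducible P → h * g ^ 4 ∣ P - c →
        2 * L + 2 + 4 * g.natDegree ≤ P.natDegree := by
  classical
  have hM0 : h * g ^ 4 ≠ 0 := mul_ne_zero hh (hg.pow 4).ne_zero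
  have hgd : (g ^ 4).natDegree = 4 * g.natDegree := natDegree_pow g 4
  have hMd : (h * g ^ 4).natDegree = h.natDegree + 4 * g.natDegree := by
    rw [natDegree_mul hh (hg.pow 4).ne_zero, hgd]
  choose t ht using fun u => lift_unit (F.c u) m₀ (h * g ^ 4) (F.cop u) hM0
  obtain ⟨c, hc⟩ : ∃ c : (Fin s₁ → K) → K[X], ∀ u, c u = (F.c u + m₀ * t u) % (h * g ^ 4) :=
    ⟨_, fun u => rfl⟩
  have hmod : ∀ u, h * g ^ 4 ∣ F.c u + m₀ * t u - c u := by
    intro u
    have := EuclideanDomain.mod_add_div (F.c u + m₀ * t u) (h * g ^ 4)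
    exact ⟨(F.c u + m₀ * t u) / (h * g ^ 4), by rw [hc]; linear_combination -this⟩
  have hmodw : ∀ u, g ^ 4 ∣ c u - F.w u ^ 4 := by
    intro u
    have h1 : g ^ 4 ∣ F.c u + m₀ * t u - c u := (dvd_mul_left _ _).trans (hmod u)
    have h2 := dvd_sub (dvd_add (F.cong u) (hm₁.mul_right (t u))) h1
    have h3 : F.c u - F.w u ^ 4 + m₀ * t u - (F.c u + m₀ * t u - c u) = c u - F.w u ^ 4 := by
      ring
    rwa [h3] at h2
  have hinj : Function.Injective c := by
    intro u v huv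
    have h1 := hmodw u
    rw [huv] at h1
    have h2 := dvd_sub (hmodw v) h1
    have h3 : c v - F.w v ^ 4 - (c v - F.w u ^ 4) = F.w u ^ 4 - F.w v ^ 4 := by ring
    rw [h3] at h2
    have h4 : (F.w u ^ 4 - F.w v ^ 4).natDegree < (g ^ 4).natDegree := by
      have a1 : (F.w u ^ 4).natDegree = 4 * (F.w u).natDegree := natDegree_pow _ 4
      have a2 : (F.w v ^ 4).natDegree = 4 * (F.w v).natDegree := natDegree_pow _ 4
      have a3 := F.degw u
      have a4 := F.degw v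
      refine (natDegree_sub_le _ _).trans_lt (max_lt ?_ ?_) <;> omega
    have h5 := eq_zero_of_dvd_of_natDegree_lt h2 h4
    exact F.inj (pow_four_inj (K := K) (sub_eq_zero.1 h5))
  refine ⟨Finset.univ.image c, ?_, ?_⟩
  · rw [Finset.card_image_of_injective _ hinj, Finset.card_univ, Fintype.card_fun,
      Fintype.card_fin]
  · intro x hx
    obtain ⟨u, _, rfl⟩ := Finset.mem_image.1 hx
    have hgpos : 0 < g.natDegree := lt_of_le_of_lt (Nat.zero_le _) (F.degw u)
    refine ⟨?_, ?_, fun P hP hdv => ?_⟩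
    · rw [hc]
      exact natDegree_mod_lt _ (by omega)
    · obtain ⟨y, hy⟩ := hmod u
      have h1 : c u = F.c u + m₀ * t u + (h * g ^ 4) * (-y) := by
        linear_combination -hy
      rw [h1]
      exact (ht u).add_mul_left_left _
    · apply F.big u P hP
      have h1 : m₀ ∣ P - c u := hm₀.trans hdv
      have h2 : m₀ ∣ F.c u + m₀ * t u - c u := hm₀.trans (hmod u)
      have h3 := dvd_add (dvd_sub h1 h2) (dvd_mul_right m₀ (t u))
      have h4 : P - c u - (F.c u + m₀ * t u - c u) + m₀ * t u = P - F.c u := by ring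
      rwa [h4] at h3

end Pool.Agent.Ff4
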