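import Pool.Agent.Ff4.Par

/-!
The algebra modulo 8 and the final contradictions.
-/

set_option autoImplicit false

namespace Pool.Agent.Ff4

open Pool.Agent.Ff2

/-- The element `y = z + z' + s`. -/
theorem comb4 (R K E : Type) [CommRing R] [IsDomain R] [Field K] [Field E] [Algebra K E]
    [CharP K 2] (π : R →+* K) (hker : ∀ x : R, π x = 0 → ∃ y : R, x = 2 * y) (h2R : (2 : R) ≠ 0)
    (q k : ℕ) (hq : q = 2 ^ k) (hfrob : ∀ x : K, x ^ q = x) (e : ℕ)
    (a b a' b' u v : R) (ha : π a ≠ 0) (ha' : π a' ≠ 0) (hu : π u ≠ 0)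
    (hmain : a ^ 2 - 4 * b = (1 + 4 * e) * u ^ 4 * (a' ^ 2 - 4 * b') + 8 * v)
    (z z' ε ε' : E) (hz : z ^ 2 + z = algebraMap K E (π b / π a ^ 2))
    (hz' : z' ^ 2 + z' = algebraMap K E (π b' / π a' ^ 2))
    (hzq : z ^ q = z + ε) (hzq' : z' ^ q = z' + ε') :
    ∃ y : E, y ^ 2 + y = (e : E) ∧ y ^ (2 ^ k) = y + (ε + ε') := by
  have hE : CharP E 2 := charP_of_injective_algebraMap (algebraMap K E).injective 2
  have h2K : (2 : K) = 0 := CharTwo.two_eq_zero
  have h2E : (2 : E) = 0 := CharTwo.two_eq_zero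
  -- modulo 2
  have h1 := congrArg π hmain
  simp only [map_sub, map_add, map_mul, map_pow, map_ofNat, map_natCast, map_one] at h1
  have h3 : (π a - π u ^ 2 * π a') ^ 2 = 0 := by
    linear_combination h1 + (2 * π b + 2 * e * π u ^ 4 * π a' ^ 2
      - 2 * (1 + 4 * e) * π u ^ 4 * π b' + 4 * π v
      - π a * π u ^ 2 * π a' + π u ^ 4 * π a' ^ 2) * h2K
  have h4 : π a = π u ^ 2 * π a' := sub_eq_zero.mp (pow_eq_zero_iff (two_ne_zero)|>.mp h3)
  have h5 : π (a - u ^ 2 * a') = 0 := by
    rw [map_sub, map_mul, map_pow, h4, sub_self]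
  obtain ⟨t, ht⟩ := hker _ h5
  have ht' : a = u ^ 2 * a' + 2 * t := by linear_combination ht
  have h6 : t * u ^ 2 * a' + t ^ 2 - b = e * u ^ 4 * a' ^ 2 - (1 + 4 * e) * u ^ 4 * b' + 2 * v := by
    have h7 : (2 : R) * (2 * (t * u ^ 2 * a' + t ^ 2 - b)) =
        2 * (2 * (e * u ^ 4 * a' ^ 2 - (1 + 4 * e) * u ^ 4 * b' + 2 * v)) := by
      rw [ht'] at hmain
      linear_combination hmain
    exact mul_left_cancel₀ h2R (mul_left_cancel₀ h2R h7)
  have h8 := congrArg π h6
  simp only [map_sub, map_add, map_mul, map_pow, map_ofNat, map_natCast, map_one] at h8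
  -- the key identity
  have h9 : π b / π a ^ 2 = e + π b' / π a' ^ 2 + π t / π a + (π t / π a) ^ 2 := by
    have h10 : π b' / π a' ^ 2 = π u ^ 4 * π b' / π a ^ 2 := by
      rw [h4]
      field_simp
    rw [h10]
    field_simp
    linear_combination (-1 : K) * h8 - (π t) * h4 - e * (π a + π u ^ 2 * π a') * h4
      + (2 * e * π u ^ 4 * π b' - π v - e * π u ^ 4 * π a' ^ 2) * h2K
  -- the element `y = z + z' + s`
  have h11 : algebraMap K E (π b / π a ^ 2) = e + algebraMap K E (π b' / π a' ^ 2) +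
      algebraMap K E (π t / π a) + algebraMap K E (π t / π a) ^ 2 := by
    rw [h9]
    simp only [map_add, map_pow, map_natCast]
  refine ⟨z + z' + algebraMap K E (π t / π a), ?_, ?_⟩
  · linear_combination hz + hz' + h11 + (z * z' + z * algebraMap K E (π t / π a) +
      z' * algebraMap K E (π t / π a) + algebraMap K E (π b' / π a' ^ 2) +
      algebraMap K E (π t / π a) + algebraMap K E (π t / π a) ^ 2) * h2E
  · rw [add_pow_char_pow, add_pow_char_pow, ← map_pow, ← hq, hzq, hzq', hfrob]
    ring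

/-- First contradiction. -/
theorem no_root1 {E : Type} [Field E] [CharP E 2] {k e : ℕ} (hk : Odd (k * e)) {y : E}
    (h1 : y ^ 2 + y = (e : E)) (h2 : y ^ (2 ^ k) = y) : False := by
  obtain ⟨hk1, he1⟩ := Nat.odd_mul.1 hk
  have h3 : (e : E) = 1 := by
    obtain ⟨c, rfl⟩ := he1
    push_cast
    have htwo : (2 : E) = 0 := CharTwo.two_eq_zero
    rw [htwo, zero_mul, zero_add]
  rw [h3] at h1
  exact Comb.no_root hk1 h1 h2

/-- Second contradiction. -/
theorem no_root2 {E : Type} [Field E] [CharP E 2] {k e : ℕ} (hk : Even (k * e)) {y : E}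
    (h1 : y ^ 2 + y = (e : E)) (h2 : y ^ (2 ^ k) = y + 1) : False := by
  have htwo : (2 : E) = 0 := CharTwo.two_eq_zero
  have key : y ^ (2 ^ k) = y := by
    rcases Nat.even_or_odd e with he | he
    · have h3 : (e : E) = 0 := by
        obtain ⟨c, rfl⟩ := he
        push_cast
        linear_combination (c : E) * htwo
      rw [h3] at h1
      have h4 : y * (y + 1) = 0 := by linear_combination h1
      rcases mul_eq_zero.1 h4 with h5 | h5
      · rw [h5, zero_pow (pow_pos two_pos _).ne']
      · have h6 : y = 1 := by linear_combination h5 - htwo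
        rw [h6, one_pow]
    · have hk2 : Even k := by
        rcases Nat.even_mul.1 hk with h | h
        · exact h
        · exact absurd h (Nat.not_even_iff_odd.2 he)
      have h3 : (e : E) = 1 := by
        obtain ⟨c, rfl⟩ := he
        push_cast
        rw [htwo, zero_mul, zero_add]
      rw [h3] at h1
      have h4 : y ^ 4 = y := by
        linear_combination (y ^ 2 - y + 2) * h1 + (1 - 2 * y) * htwo
      have hj : ∀ j : ℕ, y ^ (4 ^ j) = y := by
        intro j
        induction j with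
        | zero => simp
        | succ j ih => rw [pow_succ, pow_mul, ih, h4]
      obtain ⟨c, rfl⟩ := hk2
      rw [← two_mul, pow_mul, show (2 : ℕ) ^ 2 = 4 from rfl, hj]
  rw [key] at h2
  have : (1 : E) = 0 := by linear_combination -h2
  exact one_ne_zero this

end Pool.Agent.Ff4
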