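import Pool.Agent.Ff4.Lift
import Pool.Agent.Ff4.Comb

/-!
The core: `w ^ 4 + f g ^ 4` is reducible, `f` irreducible or a product of two irreducible
polynomials, according to the parity of `k deg g`.
-/

set_option autoImplicit false

namespace Pool.Agent.Ff4

open Polynomial Pool.Agent.Ff2

open Pool.Agent.Ff2.CoreAux in
/-- The element of the algebraic closure obtained from the two parity data. -/
theorem core_el (K : Type) [Field K] [Fintype K] (k : ℕ) (hk : Fintype.card K = 2 ^ k)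
    [CharP K 2] (f f₁ g h : K[X]) (d e : ℕ) (hf : f.Monic) (hg : g.Monic) (hd1 : 1 ≤ d)
    (hd : f.natDegree = d) (he : g.natDegree = e) (he1 : 1 ≤ e) (hf₁ : derivative f = f₁ ^ 2)
    (hcop : IsCoprime g (f₁ * h)) (hdeg : 2 * (d - 1) + 4 * h.natDegree < d + 4 * e)
    (ε' : AlgebraicClosure K) (hpar : ParD K (AlgebraicClosure K) f d ε')
    (hF : Irreducible ((f₁ * h) ^ 4 + f * g ^ 4)) :
    ∃ y : AlgebraicClosure K, y ^ 2 + y = (e : AlgebraicClosure K) ∧
      y ^ (2 ^ k) = y + ((if Even d then 1 else 0) + ε') := by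
  have : Fact (Nat.Prime 2) := ⟨Nat.prime_two⟩
  -- degree of the fourth power
  have hdeg1 : ((f₁ * h) ^ 4).natDegree < d + 4 * e := by
    have h1 : (f₁ * h).natDegree ≤ f₁.natDegree + h.natDegree := natDegree_mul_le
    have h2 : ((f₁ * h) ^ 4).natDegree ≤ 4 * (f₁ * h).natDegree := natDegree_pow_le
    have h3 : 2 * f₁.natDegree ≤ d - 1 := by
      rw [← natDegree_pow, ← hf₁, ← hd]
      exact natDegree_derivative_le f
    omega
  have hfg : (f * g ^ 4).Monic := hf.mul (hg.pow 4)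
  have hfgd : (f * g ^ 4).natDegree = d + 4 * e := by
    rw [hf.natDegree_mul (hg.pow 4), hg.natDegree_pow, hd, he]
  obtain ⟨hFm, hFd⟩ := monic_add hfg hfgd hdeg1
  have hFsep : ((f₁ * h) ^ 4 + f * g ^ 4).Separable := PerfectField.separable_of_irreducible hF
  -- the lifts
  obtain ⟨R, _, _, π, hπ, h2R, hker⟩ := witt K
  have hl : ∀ p : K[X], p ∈ lifts π := by
    intro p
    rw [lifts_iff_coeff_lifts]
    intro n
    exact hπ _
  obtain ⟨ff, hff, hffd, hffm⟩ := lifts_and_natDegree_eq_and_monic (hl f) hf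
  obtain ⟨gg, hgg, hggd, hggm⟩ := lifts_and_natDegree_eq_and_monic (hl g) hg
  obtain ⟨hh, hhh, hhhd⟩ := exists_natDegree_eq_of_mem_lifts (hl h)
  have hmap : (derivative ff ^ 2 * hh ^ 4 + ff * gg ^ 4).map π = (f₁ * h) ^ 4 + f * g ^ 4 := by
    rw [Polynomial.map_add, Polynomial.map_mul, Polynomial.map_mul, Polynomial.map_pow,
      Polynomial.map_pow, Polynomial.map_pow, ← derivative_map, hff, hgg, hhh, hf₁]
    ring
  have hcop1 : IsCoprime g f₁ := hcop.of_mul_right_left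
  have hcop2 : IsCoprime g ((f₁ * h) ^ 4 + f * g ^ 4) := by
    have h1 : IsCoprime g ((f₁ * h) ^ 4) := hcop.pow_right
    have h2 : f * g ^ 4 = g * (f * g ^ 3) := by ring
    rw [h2]
    exact h1.add_mul_left_right _
  obtain ⟨u, v, hu, huv⟩ := lift4 R K π hker ff gg hh d e hd1 hffm hggm (by rw [hffd, hd])
    (by rw [hggd, he]) he1 (by rw [hhhd]; exact hdeg) (by rw [hmap]; exact hFsep)
    (by rw [hmap, hgg]; exact hcop2)
    (by rw [hff, hgg, hf₁]; exact hcop1.pow_right)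
  -- the lift of `F`
  set FF := derivative ff ^ 2 * hh ^ 4 + ff * gg ^ 4 with hFF
  have hdeg2 : (derivative ff ^ 2 * hh ^ 4).natDegree < d + 4 * e := by
    have h1 : (derivative ff).natDegree ≤ d - 1 := by
      rw [← hd, ← hffd]
      exact natDegree_derivative_le ff
    have h2 : (derivative ff ^ 2).natDegree ≤ 2 * (derivative ff).natDegree := natDegree_pow_le
    have h3 : (hh ^ 4).natDegree ≤ 4 * hh.natDegree := natDegree_pow_le
    have h4 : (derivative ff ^ 2 * hh ^ 4).natDegree ≤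
      (derivative ff ^ 2).natDegree + (hh ^ 4).natDegree := natDegree_mul_le
    rw [hhhd] at h3
    omega
  have hfgm : (ff * gg ^ 4).Monic := hffm.mul (hggm.pow 4)
  have hfgmd : (ff * gg ^ 4).natDegree = d + 4 * e := by
    rw [hffm.natDegree_mul (hggm.pow 4), hggm.natDegree_pow, hffd, hggd, hd, he]
  obtain ⟨hFFm, hFFd⟩ := monic_add hfgm hfgmd hdeg2
  rw [← hFF] at hFFm hFFd
  have hr1 := resultant_deriv_domain FF hFFm
  have hr2 := resultant_deriv_domain ff hffm
  rw [hFFd] at hr1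
  rw [hffd, hd] at hr2
  rw [hr1, hr2, sign_eq d e hd1] at huv
  -- parity data
  obtain ⟨hA, z, hz1, hz2⟩ := par_irr K (AlgebraicClosure K) ((f₁ * h) ^ 4 + f * g ^ 4)
    (d + 4 * e) hFm hF hFd
  obtain ⟨hA', z', hz1', hz2'⟩ := hpar
  have ha : π (alp (d + 4 * e) FF) = alp (d + 4 * e) ((f₁ * h) ^ 4 + f * g ^ 4) := by
    rw [map_alp, hmap]
  have hb : π (bet (d + 4 * e) FF) = bet (d + 4 * e) ((f₁ * h) ^ 4 + f * g ^ 4) := by
    rw [map_bet, hmap]
  have ha' : π (alp d ff) = alp d f := by rw [map_alp, hff]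
  have hb' : π (bet d ff) = bet d f := by rw [map_bet, hff]
  have hsq : ((-1 : R) ^ (d * (d - 1) / 2)) * ((-1 : R) ^ (d * (d - 1) / 2)) = 1 := by
    rw [← pow_add, ← two_mul, pow_mul]
    simp
  have heq : alp (d + 4 * e) FF ^ 2 - 4 * bet (d + 4 * e) FF =
      (1 + 4 * e) * u ^ 4 * (alp d ff ^ 2 - 4 * bet d ff) + 8 * ((-1 : R) ^ (d * (d - 1) / 2) * v) := by
    set s : R := (-1 : R) ^ (d * (d - 1) / 2) with hs
    calc alp (d + 4 * e) FF ^ 2 - 4 * bet (d + 4 * e) FF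
        = (s * s) * (alp (d + 4 * e) FF ^ 2 - 4 * bet (d + 4 * e) FF) := by rw [hsq, one_mul]
      _ = s * (s * (alp (d + 4 * e) FF ^ 2 - 4 * bet (d + 4 * e) FF)) := by ring
      _ = s * ((1 + 4 * e) * u ^ 4 * (s * (alp d ff ^ 2 - 4 * bet d ff)) + 8 * v) := by rw [huv]
      _ = (s * s) * ((1 + 4 * e) * u ^ 4 * (alp d ff ^ 2 - 4 * bet d ff)) + 8 * (s * v) := by ring
      _ = _ := by rw [hsq, one_mul]
  have hz2'' : z ^ Fintype.card K = z + (if Even d then 1 else 0) := by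
    rw [hz2]
    simp only [even_iff]
  exact comb4 R K (AlgebraicClosure K) π hker h2R (Fintype.card K) k hk
    (fun x => FiniteField.pow_card x) e (alp (d + 4 * e) FF) (bet (d + 4 * e) FF) (alp d ff)
    (bet d ff) u ((-1 : R) ^ (d * (d - 1) / 2) * v) (by rw [ha]; exact hA)
    (by rw [ha']; exact hA') hu heq z z' (if Even d then 1 else 0) ε'
    (by rw [ha, hb]; exact hz1) (by rw [ha', hb']; exact hz1') hz2'' hz2'

/-- The core. -/
theorem core4 (K : Type) [Field K] [Fintype K] (k : ℕ) (hk : Fintype.card K = 2 ^ k)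
    (f f₁ g h : K[X]) (d e : ℕ) (hf : f.Monic) (hg : g.Monic) (hd1 : 1 ≤ d)
    (hd : f.natDegree = d) (he : g.natDegree = e) (he1 : 1 ≤ e) (hf₁ : derivative f = f₁ ^ 2)
    (hcop : IsCoprime g (f₁ * h)) (hdeg : 2 * (d - 1) + 4 * h.natDegree < d + 4 * e)
    (hpar : (Irreducible f ∧ Odd (k * e)) ∨
      ∃ f₂ f₃ : K[X], f₂.Monic ∧ f₃.Monic ∧ Irreducible f₂ ∧ Irreducible f₃ ∧ IsCoprime f₂ f₃ ∧
        f = f₂ * f₃ ∧ Even (k * e)) :
    ¬ Irreducible ((f₁ * h) ^ 4 + f * g ^ 4) := by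
  intro hF
  have hchar : CharP K 2 := red_charP K k hk
  have hE : CharP (AlgebraicClosure K) 2 :=
    charP_of_injective_algebraMap (algebraMap K (AlgebraicClosure K)).injective 2
  have h2E : (2 : AlgebraicClosure K) = 0 := CharTwo.two_eq_zero
  rcases hpar with ⟨hfi, ho⟩ | ⟨f₂, f₃, hm2, hm3, hi2, hi3, hc23, hff, hev⟩
  · obtain ⟨y, h1, h2⟩ := core_el K k hk f f₁ g h d e hf hg hd1 hd he he1 hf₁ hcop hdeg _
      (par_irr K (AlgebraicClosure K) f d hf hfi hd) hF
    refine no_root1 ho h1 ?_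
    rw [h2]
    linear_combination (if Even d then (1 : AlgebraicClosure K) else 0) * h2E
  · have hp := par_two K (AlgebraicClosure K) f₂ f₃ f₂.natDegree f₃.natDegree hm2 hm3 hi2 hi3
      hc23 rfl rfl
    have hdd : f₂.natDegree + f₃.natDegree = d := by
      rw [← hd, hff, hm2.natDegree_mul hm3]
    rw [← hff, hdd] at hp
    obtain ⟨y, h1, h2⟩ := core_el K k hk f f₁ g h d e hf hg hd1 hd he he1 hf₁ hcop hdeg _ hp hF
    refine no_root2 hev h1 ?_
    rw [h2]
    split_ifs <;> ring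

end Pool.Agent.Ff4
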