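import Pool.Agent.Ff4.Main

/-!
A modulus of every degree, and the statement to be handed in.
-/

set_option autoImplicit false

namespace Pool.Agent.Ff4

open Polynomial Pool.Agent.Ff2 Pool.Agent.Ff3

variable {K : Type} [Field K] [Fintype K]

/-- Irreducible polynomials of every degree. -/
theorem exists_irr [CharP K 2] (n : ℕ) (hn : n ≠ 0) :
    ∃ g : K[X], g.Monic ∧ Irreducible g ∧ g.natDegree = n := by
  have : Fact (Nat.Prime 2) := ⟨Nat.prime_two⟩
  have : NeZero n := ⟨hn⟩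
  obtain ⟨α, hα⟩ := Field.exists_primitive_element K (FiniteField.Extension K 2 n)
  have hint : IsIntegral K α := Algebra.IsIntegral.isIntegral α
  refine ⟨minpoly K α, minpoly.monic hint, minpoly.irreducible hint, ?_⟩
  rw [(Field.primitive_element_iff_minpoly_natDegree_eq K α).1 hα,
    FiniteField.finrank_extension]

/-- A modulus of every degree. -/
theorem every {k : ℕ} (hK : Fintype.card K = 2 ^ k) :
    ∃ δ : ℝ, 0 < δ ∧ ∀ n : ℕ, 1 ≤ n → ∃ m c : K[X], m.Monic ∧ m.natDegree = n ∧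
      IsCoprime c m ∧ ∀ P : K[X], Irreducible P → m ∣ P - c →
        δ * (n : ℝ) ^ 2 * (Fintype.card K : ℝ) ^ n ≤ (Fintype.card K : ℝ) ^ P.natDegree := by
  have hchar : CharP K 2 := red_charP K k hK
  have hq : 2 ≤ Fintype.card K := Fintype.one_lt_card
  have hq' : (2 : ℝ) ≤ Fintype.card K := by exact_mod_cast hq
  obtain ⟨N₀, hN₀⟩ := main4 (K := K) hK (ε := 1 / 2) (by norm_num) (by norm_num)
  obtain ⟨n0, hn0⟩ : ∃ n0, n0 = 4 * N₀ + 100 := ⟨_, rfl⟩
  have hn0' : (0 : ℝ) < n0 := by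
    rw [hn0]
    positivity
  have hδ1 : 0 < 1 / (1024 * (Fintype.card K : ℝ) ^ 5) := by positivity
  have hδ2 : 0 < 1 / ((n0 : ℝ) ^ 2 * (Fintype.card K : ℝ) ^ n0) := by positivity
  refine ⟨min (1 / (1024 * (Fintype.card K : ℝ) ^ 5))
    (1 / ((n0 : ℝ) ^ 2 * (Fintype.card K : ℝ) ^ n0)), lt_min hδ1 hδ2, ?_⟩
  intro n hn
  rcases lt_or_ge n n0 with h | h
  · refine ⟨X ^ n, 1, monic_X_pow n, natDegree_X_pow n, isCoprime_one_left, ?_⟩
    intro P _ _
    have h1 : (1 : ℝ) ≤ (Fintype.card K : ℝ) ^ P.natDegree := one_le_pow₀ (by linarith)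
    refine le_trans ?_ h1
    have h2 : (n : ℝ) ^ 2 * (Fintype.card K : ℝ) ^ n ≤
        (n0 : ℝ) ^ 2 * (Fintype.card K : ℝ) ^ n0 := by
      refine mul_le_mul ?_ (pow_le_pow_right₀ (by linarith) h.le) (by positivity) (by positivity)
      exact pow_le_pow_left₀ (by positivity) (by exact_mod_cast h.le) 2
    have h3 : (0 : ℝ) < (n0 : ℝ) ^ 2 * (Fintype.card K : ℝ) ^ n0 := by positivity
    calc min (1 / (1024 * (Fintype.card K : ℝ) ^ 5))
          (1 / ((n0 : ℝ) ^ 2 * (Fintype.card K : ℝ) ^ n0)) * (n : ℝ) ^ 2 *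
            (Fintype.card K : ℝ) ^ n
        = min (1 / (1024 * (Fintype.card K : ℝ) ^ 5))
          (1 / ((n0 : ℝ) ^ 2 * (Fintype.card K : ℝ) ^ n0)) *
            ((n : ℝ) ^ 2 * (Fintype.card K : ℝ) ^ n) := by ring
      _ ≤ 1 / ((n0 : ℝ) ^ 2 * (Fintype.card K : ℝ) ^ n0) *
            ((n0 : ℝ) ^ 2 * (Fintype.card K : ℝ) ^ n0) :=
          mul_le_mul (min_le_right _ _) h2 (by positivity) hδ2.le
      _ = 1 := one_div_mul_cancel h3.ne'
  · obtain ⟨D, r, h1, h2, h3⟩ : ∃ D r : ℕ, n = 4 * D + r ∧ 2 ≤ r ∧ r ≤ 5 :=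
      ⟨(n - 2) / 4, (n - 2) % 4 + 2, by omega, by omega, by omega⟩
    have hDN : N₀ ≤ D := by omega
    have hD1 : 1 ≤ D := by omega
    obtain ⟨g, hg, hgi, hgd⟩ := exists_irr (K := K) D (by omega)
    have hrough : ∀ p : K[X], Irreducible p → p ∣ g →
        g.natDegree ≤ Fintype.card K ^ p.natDegree := by
      intro p hp hpg
      have h4 : p.natDegree = g.natDegree := natDegree_eq_of_degree_eq
        (degree_eq_degree_of_associated (hp.associated_of_dvd hgi hpg))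
      rw [h4]
      exact (Nat.lt_pow_self hq).le
    have hns : ¬ Squarefree (X ^ r : K[X]) := by
      intro h4
      have h5 : (X : K[X]) * X ∣ X ^ r := by
        rw [← sq]
        exact pow_dvd_pow _ h2
      exact not_isUnit_X (h4 X h5)
    obtain ⟨C, hC, hC2⟩ := hN₀ g (X ^ r) hg (hgd ▸ hDN) (pow_ne_zero _ X_ne_zero) hrough
      (Or.inr hns)
    have hCne : C.Nonempty := by
      rw [← Finset.card_pos]
      have h4 : (0 : ℝ) < C.card := lt_of_lt_of_le (by positivity) hC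
      exact_mod_cast h4
    obtain ⟨c, hc⟩ := hCne
    obtain ⟨_, h5, h6⟩ := hC2 c hc
    refine ⟨X ^ r * g ^ 4, c, (monic_X_pow r).mul (hg.pow 4), ?_, h5, ?_⟩
    · rw [(monic_X_pow r).natDegree_mul (hg.pow 4), natDegree_X_pow, hg.natDegree_pow, hgd]
      omega
    · intro P hP hdv
      -- the largest power
      have hex : ∃ j : ℕ, (1 - (1 / 2 : ℝ)) * ((Fintype.card K : ℝ) - 1) * g.natDegree <
          (Fintype.card K : ℝ) ^ j := pow_unbounded_of_one_lt _ (by linarith)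
      classical
      obtain ⟨J, hJ⟩ : ∃ J, J = Nat.find hex := ⟨_, rfl⟩
      have hJ1 : (1 - (1 / 2 : ℝ)) * ((Fintype.card K : ℝ) - 1) * g.natDegree <
          (Fintype.card K : ℝ) ^ J := hJ ▸ Nat.find_spec hex
      have hD' : (20 : ℝ) ≤ D := by
        have : 20 ≤ D := by omega
        exact_mod_cast this
      have hJ0 : J ≠ 0 := by
        intro h0
        rw [h0, pow_zero, hgd] at hJ1
        nlinarith
      have hJ2 : (Fintype.card K : ℝ) ^ (J - 1) ≤
          (1 - (1 / 2 : ℝ)) * ((Fintype.card K : ℝ) - 1) * g.natDegree :=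
        not_lt.1 (Nat.find_min hex (by omega))
      obtain ⟨j, rfl⟩ : ∃ j, J = j + 1 := ⟨J - 1, by omega⟩
      rw [Nat.add_sub_cancel] at hJ2
      have h7 := h6 P hP hdv j hJ2
      rw [hg.natDegree_pow, hgd] at h7
      rw [hgd] at hJ1
      have h8 : (n : ℝ) ≤ 32 * (Fintype.card K : ℝ) ^ j := by
        have e1 : (n : ℝ) ≤ 8 * D := by
          have : n ≤ 8 * D := by omega
          exact_mod_cast this
        have e2 : (Fintype.card K : ℝ) * (D / 4) ≤
            Fintype.card K * (Fintype.card K : ℝ) ^ j := by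
          have e3 : (Fintype.card K : ℝ) ^ (j + 1) = Fintype.card K * (Fintype.card K : ℝ) ^ j := by
            ring
          rw [e3] at hJ1
          nlinarith
        have e4 := le_of_mul_le_mul_left e2 (by linarith)
        linarith
      have hqr : (Fintype.card K : ℝ) ^ n ≤
          (Fintype.card K : ℝ) ^ 5 * (Fintype.card K : ℝ) ^ (4 * D) := by
        rw [← pow_add]
        exact pow_le_pow_right₀ (by linarith) (by omega)
      generalize Fintype.card K = q at *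
      have hq5 : (0 : ℝ) < (q : ℝ) ^ 5 := by positivity
      have h9 : (n : ℝ) ^ 2 ≤ 1024 * ((q : ℝ) ^ j) ^ 2 := by
        calc (n : ℝ) ^ 2 ≤ (32 * (q : ℝ) ^ j) ^ 2 := pow_le_pow_left₀ (by positivity) h8 2
          _ = 1024 * ((q : ℝ) ^ j) ^ 2 := by ring
      calc min (1 / (1024 * (q : ℝ) ^ 5)) (1 / ((n0 : ℝ) ^ 2 * (q : ℝ) ^ n0)) * (n : ℝ) ^ 2 *
            (q : ℝ) ^ n
          ≤ 1 / (1024 * (q : ℝ) ^ 5) * (1024 * ((q : ℝ) ^ j) ^ 2) *
              ((q : ℝ) ^ 5 * (q : ℝ) ^ (4 * D)) := by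
            refine mul_le_mul ?_ hqr (by positivity) (by positivity)
            exact mul_le_mul (min_le_left _ _) h9 (by positivity) hδ1.le
        _ = (q : ℝ) ^ (4 * D) * ((q : ℝ) ^ j) ^ 2 := by
            field_simp
        _ ≤ (q : ℝ) ^ P.natDegree := h7

theorem fin4 (F : Type) [Field F] [Fintype F] (k : ℕ) (hF : Fintype.card F = 2 ^ k) :
    (∃ δ : ℝ, 0 < δ ∧ ∀ n : ℕ, 1 ≤ n → ∃ m c : F[X], m.Monic ∧ m.natDegree = n ∧
      IsCoprime c m ∧ ∀ P : F[X], Irreducible P → m ∣ P - c →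
        δ * (n : ℝ) ^ 2 * (Fintype.card F : ℝ) ^ n ≤ (Fintype.card F : ℝ) ^ P.natDegree) ∧
    ∀ ε : ℝ, 0 < ε → ε < 1 → ∃ N₀ : ℕ, ∀ g h : F[X], g.Monic → N₀ ≤ g.natDegree → h ≠ 0 →
      (∀ p : F[X], Irreducible p → p ∣ g → g.natDegree ≤ Fintype.card F ^ p.natDegree) →
      (Odd (k * g.natDegree) ∨ ¬ Squarefree h) →
      ∃ C : Finset F[X], ((Fintype.card F : ℝ) ^ (g ^ 4).natDegree) ^ (ε / 5) ≤ C.card ∧
        ∀ c ∈ C, c.natDegree < (h * g ^ 4).natDegree ∧ IsCoprime c (h * g ^ 4) ∧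
          ∀ P : F[X], Irreducible P → h * g ^ 4 ∣ P - c → ∀ j : ℕ,
            (Fintype.card F : ℝ) ^ j ≤
              (1 - ε) * ((Fintype.card F : ℝ) - 1) * g.natDegree →
            (Fintype.card F : ℝ) ^ (g ^ 4).natDegree * ((Fintype.card F : ℝ) ^ j) ^ 2 ≤
              (Fintype.card F : ℝ) ^ P.natDegree :=
  ⟨every hF, fun _ hε hε1 => main4 hF hε hε1⟩

end Pool.Agent.Ff4
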