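import Pool.Agent.Ff4.Siev

/-!
Classes without small irreducible polynomials modulo `p ^ 2 g ^ 4`.
-/

set_option autoImplicit false

namespace Pool.Agent.Ff4

open Polynomial Pool.Agent.Ff2 Pool.Agent.Ff3 UniqueFactorizationMonoid

variable {K : Type} [Field K] [Fintype K]

omit [Fintype K] in
/-- Degree of `w ^ 4 + f g ^ 4`. -/
theorem deg_F {g w f : K[X]} (hg : g.Monic) (hf : f ≠ 0) (h : w.natDegree < g.natDegree) :
    (w ^ 4 + f * g ^ 4).natDegree = f.natDegree + 4 * g.natDegree := by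
  have h3 : (f * g ^ 4).natDegree = f.natDegree + 4 * g.natDegree := by
    rw [natDegree_mul hf (hg.pow 4).ne_zero, hg.natDegree_pow]
  have h4 : (w ^ 4).natDegree = 4 * w.natDegree := natDegree_pow w 4
  rw [natDegree_add_eq_right_of_natDegree_lt (by omega), h3]

/-- First kind of classes. -/
theorem key_odd {k : ℕ} (hK : Fintype.card K = 2 ^ k) {L : ℕ} {g w : K[X]} (hg : g.Monic)
    (hw0 : w ≠ 0) (hcop : IsCoprime g w)
    (hwL : ∀ a : K[X], a ≠ 0 → a.natDegree ≤ L → a ∣ w)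
    (hdeg : w.natDegree + L + 1 ≤ g.natDegree) (ho : Odd (k * g.natDegree)) {P : K[X]}
    (hP : Irreducible P) (hdv : g ^ 4 ∣ P - w ^ 4) :
    2 * L + 2 + 4 * g.natDegree ≤ P.natDegree := by
  obtain ⟨f, hf⟩ := hdv
  have hPe : P = w ^ 4 + f * g ^ 4 := by
    rw [mul_comm f, ← hf]
    ring
  have h2 : 2 * L + 2 ≤ f.natDegree := by
    by_contra h3
    have h1 := red4 (p := 1) (fs := f) hK hg hw0 hcop (fun a h1 h2 _ => hwL a h1 h2) hdeg
      (Or.inl ⟨rfl, ho⟩) isCoprime_one_left (by rw [one_mul]; omega)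
    rw [one_mul] at h1
    exact h1 (hPe ▸ hP)
  have hf0 : f ≠ 0 := by
    rintro rfl
    rw [natDegree_zero] at h2
    omega
  rw [hPe, deg_F hg hf0 (by omega)]
  omega

/-- Second kind of classes. -/
theorem key_even {k : ℕ} (hK : Fintype.card K = 2 ^ k) {L : ℕ} {g w p p₁ : K[X]} (hg : g.Monic)
    (hw0 : w ≠ 0) (hcop : IsCoprime g w)
    (hwL : ∀ a : K[X], a ≠ 0 → a.natDegree ≤ L → IsCoprime a p → a ∣ w)
    (hdeg : w.natDegree + L + 1 ≤ g.natDegree) (he : Even (k * g.natDegree))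
    (hp : Irreducible p) (hp₁ : Irreducible p₁) (hp₁d : p₁.natDegree ≤ g.natDegree)
    (hp₁w : p₁ ∣ w ^ 4 + p * g ^ 4) {P : K[X]} (hP : Irreducible P)
    (hdv : p ^ 2 * g ^ 4 ∣ P - (w ^ 4 + p * g ^ 4)) :
    2 * L + 2 + 4 * g.natDegree ≤ P.natDegree := by
  obtain ⟨x, hx⟩ := hdv
  have hPe : P = w ^ 4 + p * (1 + p * x) * g ^ 4 := by
    linear_combination hx
  have hpf : IsCoprime p (1 + p * x) := ⟨-x, 1, by ring⟩
  have hfs0 : (1 + p * x) ≠ 0 := by
    intro h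
    rw [h] at hpf
    exact hp.not_isUnit (isCoprime_zero_right.1 hpf)
  have hB0 : p * (1 + p * x) ≠ 0 := mul_ne_zero hp.ne_zero hfs0
  have hPd : P.natDegree = (p * (1 + p * x)).natDegree + 4 * g.natDegree := by
    rw [hPe, deg_F hg hB0 (by omega)]
  have hu : ¬ IsUnit (1 + p * x) := by
    intro hu
    have h0 := natDegree_eq_zero_of_isUnit hu
    have hx0 : x = 0 := by
      by_contra hx0
      have h1 : (p * x).natDegree = p.natDegree + x.natDegree := natDegree_mul hp.ne_zero hx0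
      have h2 := hp.natDegree_pos
      have h3 : (1 + p * x).natDegree = (p * x).natDegree := by
        rw [natDegree_add_eq_right_of_natDegree_lt]
        rw [natDegree_one]
        omega
      omega
    rw [hx0, mul_zero, add_zero, mul_one] at hPe hPd
    have h1 : p₁ ∣ P := hPe ▸ hp₁w
    have h2 : Associated p₁ P := hp₁.associated_of_dvd hP h1
    have h3 : p₁.natDegree = P.natDegree :=
      natDegree_eq_of_degree_eq (degree_eq_degree_of_associated h2)
    have h4 := hp.natDegree_pos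
    omega
  have h2 : 2 * L + 2 ≤ (p * (1 + p * x)).natDegree := by
    by_contra h3
    have h1 := red4 (p := p) (fs := 1 + p * x) hK hg hw0 hcop hwL hdeg
      (Or.inr ⟨hp, he, hu⟩) hpf (by omega)
    exact h1 (hPe ▸ hP)
  omega

/-- The family of the cofactors. -/
theorem family (ℓ s₁ : ℕ) (hℓ : 1 ≤ ℓ) (T : Finset K[X]) (A σ : K[X]) (hA : A ≠ 0)
    (hσ : σ.natDegree ≤ A.natDegree)
    (hT : ∀ t ∈ T, Irreducible t ∧ (¬ t ∣ A → ℓ ≤ t.natDegree))
    (hcard : T.card < Fintype.card K ^ ℓ) (hσA : IsCoprime σ A) :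
    ∃ s : (Fin s₁ → K) → K[X], Function.Injective s ∧
      ∀ u, (s u).natDegree = A.natDegree + (ℓ + s₁) ∧ A ∣ s u - σ ∧
        (∀ t : K[X], Irreducible t → t ∣ A → ¬ t ∣ s u) ∧ ∀ t ∈ T, ¬ t ∣ s u := by
  choose r hr using fun u : Fin s₁ → K => sieve ℓ T A σ (X ^ ℓ * mpol K s₁ u) hT hcard
  have hlow : ∀ u, (((degreeLTEquiv K ℓ).symm (r u) : K[X])).degree < ℓ :=
    fun u => mem_degreeLT.1 ((degreeLTEquiv K ℓ).symm (r u)).2
  have hM : ∀ u, (X ^ ℓ * mpol K s₁ u + ((degreeLTEquiv K ℓ).symm (r u) : K[X])).Monic ∧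
      (X ^ ℓ * mpol K s₁ u + ((degreeLTEquiv K ℓ).symm (r u) : K[X])).natDegree = ℓ + s₁ := by
    intro u
    obtain ⟨h1, h2⟩ := mpol_deg s₁ u
    have h3 : (X ^ ℓ * mpol K s₁ u).Monic := (monic_X_pow ℓ).mul h1
    have h4 : (X ^ ℓ * mpol K s₁ u).degree = ((ℓ + s₁ : ℕ) : WithBot ℕ) := by
      rw [degree_eq_natDegree h3.ne_zero, (monic_X_pow ℓ).natDegree_mul h1, natDegree_X_pow, h2]
    have h5 : (((degreeLTEquiv K ℓ).symm (r u) : K[X])).degree <
        (X ^ ℓ * mpol K s₁ u).degree := by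
      rw [h4]
      refine (hlow u).trans_le ?_
      exact_mod_cast Nat.le_add_right ℓ s₁
    refine ⟨h3.add_of_left h5, ?_⟩
    have h6 := degree_add_eq_left_of_degree_lt h5
    rw [h4] at h6
    exact natDegree_eq_of_degree_eq_some h6
  refine ⟨fun u => σ + A * (X ^ ℓ * mpol K s₁ u + ((degreeLTEquiv K ℓ).symm (r u) : K[X])),
    ?_, fun u => ⟨?_, ?_, ?_, ?_⟩⟩
  · intro u v huv
    have h1 : A * (X ^ ℓ * mpol K s₁ u + ((degreeLTEquiv K ℓ).symm (r u) : K[X])) =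
        A * (X ^ ℓ * mpol K s₁ v + ((degreeLTEquiv K ℓ).symm (r v) : K[X])) :=
      add_left_cancel huv
    have h2 := mul_left_cancel₀ hA h1
    have h3 : (X ^ ℓ : K[X]) ∣ ((degreeLTEquiv K ℓ).symm (r v) : K[X]) -
        ((degreeLTEquiv K ℓ).symm (r u) : K[X]) :=
      ⟨mpol K s₁ u - mpol K s₁ v, by linear_combination -h2⟩
    have h4 : (((degreeLTEquiv K ℓ).symm (r v) : K[X]) -
        ((degreeLTEquiv K ℓ).symm (r u) : K[X])).degree < ℓ :=
      mem_degreeLT.1 (Submodule.sub_mem _ ((degreeLTEquiv K ℓ).symm (r v)).2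
        ((degreeLTEquiv K ℓ).symm (r u)).2)
    have h5 := eq_zero_of_dvd_of_degree_lt h3 (by rw [degree_X_pow]; exact h4)
    have h6 : (X ^ ℓ : K[X]) * mpol K s₁ u = X ^ ℓ * mpol K s₁ v := by
      linear_combination h2 + h5
    exact mpol_inj s₁ (mul_left_cancel₀ (pow_ne_zero _ X_ne_zero) h6)
  · obtain ⟨h1, h2⟩ := hM u
    have h3 : (A * (X ^ ℓ * mpol K s₁ u + ((degreeLTEquiv K ℓ).symm (r u) : K[X]))).natDegree =
        A.natDegree + (ℓ + s₁) := by
      rw [natDegree_mul hA h1.ne_zero, h2]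
    show (σ + _).natDegree = _
    rw [natDegree_add_eq_right_of_natDegree_lt (by rw [h3]; omega), h3]
  · exact ⟨X ^ ℓ * mpol K s₁ u + ((degreeLTEquiv K ℓ).symm (r u) : K[X]), by ring⟩
  · intro t ht htA h1
    have h2 : t ∣ σ := (dvd_add_left (htA.mul_right _)).1 h1
    exact ht.not_isUnit (hσA.isUnit_of_dvd' h2 htA)
  · intro t ht h1
    by_cases htA : t ∣ A
    · have h2 : t ∣ σ := (dvd_add_left (htA.mul_right _)).1 h1
      exact (hT t ht).1.not_isUnit (hσA.isUnit_of_dvd' h2 htA)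
    · exact hr u t ht htA h1

end Pool.Agent.Ff4
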