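import Pool.Agent.Ff4.Par

/-!
The congruence modulo 8 for an arbitrary degree of the modulus.
-/

set_option autoImplicit false

namespace Pool.Agent.Ff4

open Polynomial Pool.Agent.Ff2

theorem lift4 (R K : Type) [CommRing R] [IsDomain R] [Field K] [CharP K 2] (π : R →+* K)
    (hπ : ∀ x : R, π x = 0 → ∃ y : R, x = 2 * y) (f g h : R[X]) (d e : ℕ) (hd1 : 1 ≤ d)
    (hf : f.Monic) (hg : g.Monic) (hd : f.natDegree = d) (he : g.natDegree = e) (he1 : 1 ≤ e)
    (hdeg : 2 * (d - 1) + 4 * h.natDegree < d + 4 * e)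
    (hsep : ((derivative f ^ 2 * h ^ 4 + f * g ^ 4).map π).Separable)
    (hcop : IsCoprime (g.map π) ((derivative f ^ 2 * h ^ 4 + f * g ^ 4).map π))
    (hcop' : IsCoprime (g.map π) (derivative (f.map π))) :
    ∃ u v : R, π u ≠ 0 ∧
      resultant (derivative f ^ 2 * h ^ 4 + f * g ^ 4)
          (derivative (derivative f ^ 2 * h ^ 4 + f * g ^ 4)) (d + 4 * e) (d + 4 * e - 1) =
        (1 + 4 * e) * u ^ 4 * resultant f (derivative f) d (d - 1) + 8 * v := by
  have a1 : (derivative f).natDegree ≤ d - 1 := hd ▸ natDegree_derivative_le f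
  have b2 : (derivative f ^ 2).natDegree ≤ 2 * (d - 1) := natDegree_pow_le_of_le 2 a1
  have a3 : (h ^ 4).natDegree ≤ 4 * h.natDegree := natDegree_pow_le
  have hFe : derivative f ^ 2 * h ^ 4 + f * g ^ 4 =
      f * g ^ 4 + derivative f * (derivative f * h ^ 4) := by ring
  have hm : (f * g ^ 4).Monic := hf.mul (hg.pow 4)
  have hmd : (f * g ^ 4).natDegree = d + 4 * e := by
    rw [hf.natDegree_mul (hg.pow 4), hg.natDegree_pow, hd, he]
  have hlow : (derivative f ^ 2 * h ^ 4).natDegree < (f * g ^ 4).natDegree := by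
    rw [hmd]
    exact lt_of_le_of_lt (natDegree_mul_le_of_le b2 a3) hdeg
  have hFm : (derivative f ^ 2 * h ^ 4 + f * g ^ 4).Monic :=
    hm.add_of_right (degree_lt_degree hlow)
  have hFd : (derivative f ^ 2 * h ^ 4 + f * g ^ 4).natDegree = d + 4 * e := by
    rw [natDegree_add_eq_right_of_natDegree_lt hlow, hmd]
  have hGd : (derivative f * g ^ 4).natDegree ≤ d + 4 * e - 1 := by
    have c1 : (g ^ 4).natDegree ≤ 4 * e := natDegree_pow_le_of_le 4 he.le
    exact (natDegree_mul_le_of_le a1 c1).trans (by omega)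
  obtain ⟨v, hv⟩ := exp eul R K π hπ (derivative f ^ 2 * h ^ 4 + f * g ^ 4) (derivative f * g ^ 4)
    (LIFT.V f g h) (d + 4 * e) (by omega) hFm hFd hGd
    (LIFT.degree_V f g h d e hd he hd1 he1 hdeg) (LIFT.deriv_F f g h) hsep
  have hp : (derivative f * h ^ 4).natDegree + (d - 1) < d + 4 * e := by
    have := natDegree_mul_le_of_le a1 a3
    omega
  have hres := res R f g (derivative f * h ^ 4) d e hd1 hf hg hd he hp
  rw [← hFe] at hres
  have hN : d + 4 * e - 1 = d - 1 + 4 * e := by omega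
  rw [LIFT.coeff_V f g h d e hd he hf hg hd1 he1 hdeg] at hv
  rw [hN] at hv ⊢
  rw [hres] at hv
  refine ⟨resultant g (derivative f) e (d - 1) *
    resultant (derivative f ^ 2 * h ^ 4 + f * g ^ 4) g (d + 4 * e) e,
    v, ?_, ?_⟩
  · rw [map_mul, ← resultant_map_map, ← resultant_map_map]
    have hge : (g.map π).natDegree = e := by rw [hg.natDegree_map, he]
    refine mul_ne_zero ?_ ?_
    · refine LIFT.res_ne _ _ _ _ (hg.map π) hge (natDegree_map_le.trans a1) ?_
      rw [← derivative_map]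
      exact hcop'
    · exact LIFT.res_ne' _ _ _ _ (hg.map π) hge (natDegree_map_le.trans hFd.le) hcop
  · rw [hv]
    ring

end Pool.Agent.Ff4
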