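import Pool.Agent.Ff4.Cls

/-!
Many classes without small irreducible polynomials modulo `h g ^ 4`, over every finite field of
characteristic two.
-/

set_option autoImplicit false

namespace Pool.Agent.Ff4

open Polynomial Pool.Agent.Ff2 Pool.Agent.Ff3

variable {K : Type} [Field K] [Fintype K]

theorem cls4 {k : ℕ} (hK : Fintype.card K = 2 ^ k) {L s₁ n : ℕ} {g h : K[X]} (hg : g.Monic)
    (hh : h ≠ 0) (hr : ∀ t : K[X], Irreducible t → t ∣ g → L + 1 ≤ t.natDegree)
    (hcard : g.natDegree + (L + 1) < (L + 1) * Fintype.card K ^ (L + 1)) (hn0 : n ≠ 0)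
    (hn : g.natDegree + (wL K L).natDegree + n < Fintype.card K ^ n)
    (hdeg : (wL K L).natDegree + (n + L) + (L + 1) + s₁ + L + 1 ≤ g.natDegree)
    (hcase : Odd (k * g.natDegree) ∨ ¬ Squarefree h) :
    ∃ C : Finset K[X], C.card = Fintype.card K ^ s₁ ∧ ∀ c ∈ C,
      c.natDegree < (h * g ^ 4).natDegree ∧ IsCoprime c (h * g ^ 4) ∧
      ∀ P : K[X], Irreducible P → h * g ^ 4 ∣ P - c →
        2 * L + 2 + 4 * g.natDegree ≤ P.natDegree := by
  have hchar : CharP K 2 := red_charP K k hK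
  rcases Nat.even_or_odd (k * g.natDegree) with he | ho
  · have hsq : ¬ Squarefree h := by
      rcases hcase with h1 | h1
      · exact absurd he (Nat.not_even_iff_odd.2 h1)
      · exact h1
    unfold Squarefree at hsq
    push Not at hsq
    obtain ⟨x, hx, hxu⟩ := hsq
    have hx0 : x ≠ 0 := by
      rintro rfl
      rw [mul_zero] at hx
      exact hh (zero_dvd_iff.1 hx)
    obtain ⟨p, hp, hpx⟩ := WfDvdMonoid.exists_irreducible_factor hxu hx0
    have hph : p ^ 2 ∣ h := by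
      rw [sq]
      exact (mul_dvd_mul hpx hpx).trans hx
    obtain ⟨F⟩ := fam_even (s₁ := s₁) hK hg hp hr hcard hn0 hn hdeg he
    exact fam_cls hg hh (mul_dvd_mul_right hph _) (dvd_mul_left _ _) F
  · obtain ⟨F⟩ := fam_odd (s₁ := s₁) hK hg hr hcard (by omega) ho
    exact fam_cls hg hh (dvd_mul_left _ _) dvd_rfl F

theorem main4 {k : ℕ} (hK : Fintype.card K = 2 ^ k) {ε : ℝ} (hε : 0 < ε) (hε1 : ε < 1) :
    ∃ N₀ : ℕ, ∀ g h : K[X], g.Monic → N₀ ≤ g.natDegree → h ≠ 0 →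
      (∀ p : K[X], Irreducible p → p ∣ g → g.natDegree ≤ Fintype.card K ^ p.natDegree) →
      (Odd (k * g.natDegree) ∨ ¬ Squarefree h) →
      ∃ C : Finset K[X], ((Fintype.card K : ℝ) ^ (g ^ 4).natDegree) ^ (ε / 5) ≤ C.card ∧
        ∀ c ∈ C, c.natDegree < (h * g ^ 4).natDegree ∧ IsCoprime c (h * g ^ 4) ∧
          ∀ P : K[X], Irreducible P → h * g ^ 4 ∣ P - c → ∀ j : ℕ,
            (Fintype.card K : ℝ) ^ j ≤
              (1 - ε) * ((Fintype.card K : ℝ) - 1) * g.natDegree →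
            (Fintype.card K : ℝ) ^ (g ^ 4).natDegree * ((Fintype.card K : ℝ) ^ j) ^ 2 ≤
              (Fintype.card K : ℝ) ^ P.natDegree := by
  have hq : 2 ≤ Fintype.card K := Fintype.one_lt_card
  have hq' : (2 : ℝ) ≤ Fintype.card K := by exact_mod_cast hq
  have e0 : 0 < 1 - ε := by linarith
  obtain ⟨J₀, hJ₀1, hJ₀2⟩ : ∃ J₀ : ℕ, 4 / (1 - ε) ≤ J₀ ∧ 2 ≤ J₀ :=
    ⟨⌈4 / (1 - ε)⌉₊ + 2, by
      push_cast
      linarith [Nat.le_ceil (4 / (1 - ε))], by omega⟩
  obtain ⟨N₀, hN1, hN2⟩ : ∃ N₀ : ℕ, 20000 * Fintype.card K / ε ^ 2 ≤ N₀ ∧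
      (Fintype.card K : ℝ) ^ J₀ / (1 - ε) ≤ N₀ := by
    refine ⟨max (⌈20000 * Fintype.card K / ε ^ 2⌉₊)
      (⌈(Fintype.card K : ℝ) ^ J₀ / (1 - ε)⌉₊), ?_, ?_⟩
    · exact (Nat.le_ceil _).trans (by exact_mod_cast le_max_left _ _)
    · exact (Nat.le_ceil _).trans (by exact_mod_cast le_max_right _ _)
  refine ⟨N₀, fun g h hg hgN hh hrough hcase => ?_⟩
  have hm : (g ^ 4).natDegree = 4 * g.natDegree := natDegree_pow g 4
  obtain ⟨N, hN⟩ : ∃ N, g.natDegree = N := ⟨_, rfl⟩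
  rw [hN] at hgN hm
  have hN3 : (N₀ : ℝ) ≤ N := by exact_mod_cast hgN
  have hN4 : 20000 * Fintype.card K ≤ ε ^ 2 * N := by
    have := (div_le_iff₀ (by positivity)).1 hN1
    nlinarith [sq_nonneg ε]
  have hN5 : (Fintype.card K : ℝ) ^ J₀ ≤ (1 - ε) * N := by
    have := (div_le_iff₀ e0).1 hN2
    nlinarith
  have hNε : 40000 ≤ ε * (ε * N) := by nlinarith
  have hN0 : (0 : ℝ) < N := by
    by_contra h0
    have : (N : ℝ) = 0 := le_antisymm (not_lt.1 h0) (by positivity)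
    rw [this] at hNε
    linarith
  have hNε2 : 40000 ≤ ε * N := by nlinarith [mul_pos hε hN0]
  -- the largest power
  have hex : ∃ j : ℕ, (1 - ε) * ((Fintype.card K : ℝ) - 1) * N < (Fintype.card K : ℝ) ^ j :=
    pow_unbounded_of_one_lt _ (by linarith)
  classical
  obtain ⟨J, hJ⟩ : ∃ J, J = Nat.find hex := ⟨_, rfl⟩
  have hJ1 : (1 - ε) * ((Fintype.card K : ℝ) - 1) * N < (Fintype.card K : ℝ) ^ J :=
    hJ ▸ Nat.find_spec hex
  have hJ2 : ∀ i < J, (Fintype.card K : ℝ) ^ i ≤ (1 - ε) * ((Fintype.card K : ℝ) - 1) * N :=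
    fun i hi => not_lt.1 (Nat.find_min hex (hJ ▸ hi))
  have hJ3 : J₀ < J := by
    by_contra h
    have h1 : (Fintype.card K : ℝ) ^ J ≤ (Fintype.card K : ℝ) ^ J₀ :=
      pow_le_pow_right₀ (by linarith) (by omega)
    have h2 : (1 - ε) * N * 1 ≤ (1 - ε) * N * ((Fintype.card K : ℝ) - 1) :=
      mul_le_mul_of_nonneg_left (by linarith) (by positivity)
    nlinarith
  obtain ⟨L, rfl⟩ : ∃ L, J = L + 2 := ⟨J - 2, by omega⟩
  have hx := hJ2 (L + 1) (by omega)
  have hDL := (deg K L).2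
  have hqN : (1 - ε) * ((Fintype.card K : ℝ) - 1) * N < Fintype.card K * N := by
    refine mul_lt_mul_of_pos_right ?_ hN0
    nlinarith
  -- the degrees
  have hL2 : ((L : ℝ) + 1) ≤ ε / 20 * N := by
    have h1 : (((L + 1 : ℕ) : ℝ)) ^ 2 ≤ 4 * 2 ^ (L + 1) := by exact_mod_cast sq_le_pow (L + 1)
    have h2 : (2 : ℝ) ^ (L + 1) ≤ (Fintype.card K : ℝ) ^ (L + 1) :=
      pow_le_pow_left₀ (by norm_num) hq' _
    have h4 : ((L : ℝ) + 1) ^ 2 ≤ (ε / 20 * N) ^ 2 := by
      push_cast at h1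
      have h5 : 4 * (Fintype.card K * (N : ℝ)) ≤ (ε / 20 * N) ^ 2 := by
        have h6 : 20000 * Fintype.card K * (N : ℝ) ≤ ε ^ 2 * N * N :=
          mul_le_mul_of_nonneg_right hN4 (by positivity)
        nlinarith
      linarith
    exact (pow_le_pow_iff_left₀ (by positivity) (by positivity) (by norm_num)).1 h4
  have hDr : ((wL K L).natDegree : ℝ) * ((Fintype.card K : ℝ) - 1) + Fintype.card K =
      (Fintype.card K : ℝ) ^ (L + 1) := by
    have : ((Fintype.card K - 1 : ℕ) : ℝ) = (Fintype.card K : ℝ) - 1 := by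
      rw [Nat.cast_sub (by omega), Nat.cast_one]
    rw [← this]
    exact_mod_cast hDL
  have hD1 : ((wL K L).natDegree : ℝ) ≤ (1 - ε) * N := by
    have h1 : ((wL K L).natDegree : ℝ) * ((Fintype.card K : ℝ) - 1) ≤
        (1 - ε) * N * ((Fintype.card K : ℝ) - 1) := by linarith
    exact le_of_mul_le_mul_right h1 (by linarith)
  -- the auxiliary degree
  have hex2 : ∃ n : ℕ, 3 * N < Fintype.card K ^ n :=
    ⟨3 * N, lt_of_lt_of_le Nat.lt_two_pow_self (Nat.pow_le_pow_left hq _)⟩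
  obtain ⟨n, hn⟩ : ∃ n, n = Nat.find hex2 := ⟨_, rfl⟩
  have hn1 : 3 * N < Fintype.card K ^ n := hn ▸ Nat.find_spec hex2
  have hNpos : 0 < N := by exact_mod_cast hN0
  have hn0 : n ≠ 0 := by
    intro h0
    rw [h0, pow_zero] at hn1
    omega
  have hn2 : Fintype.card K ^ (n - 1) ≤ 3 * N :=
    not_lt.1 (Nat.find_min hex2 (by omega))
  have hn3 : (n : ℝ) ≤ ε / 20 * N := by
    obtain ⟨m, rfl⟩ := Nat.exists_eq_succ_of_ne_zero hn0
    have h1 : ((m : ℝ)) ^ 2 ≤ 4 * 2 ^ m := by exact_mod_cast sq_le_pow m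
    have h2 : (2 : ℝ) ^ m ≤ (Fintype.card K : ℝ) ^ m := pow_le_pow_left₀ (by norm_num) hq' _
    have h3 : (Fintype.card K : ℝ) ^ m ≤ 3 * N := by
      have : Fintype.card K ^ m ≤ 3 * N := hn2
      exact_mod_cast this
    have h4 : (m : ℝ) ^ 2 ≤ (ε / 40 * N) ^ 2 := by
      have h5 : 12 * (N : ℝ) ≤ (ε / 40 * N) ^ 2 := by
        have h6 : 40000 * (N : ℝ) ≤ ε * (ε * N) * N :=
          mul_le_mul_of_nonneg_right hNε (by positivity)
        nlinarith
      linarith
    have h7 : (m : ℝ) ≤ ε / 40 * N :=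
      (pow_le_pow_iff_left₀ (by positivity) (by positivity) (by norm_num)).1 h4
    push_cast
    linarith
  have hεN : ε * N ≤ N := by nlinarith
  have hsum : (wL K L).natDegree + (n + L) + (L + 1) + L + 1 ≤ N := by
    have : ((wL K L).natDegree : ℝ) + (n + L) + (L + 1) + L + 1 ≤ N := by linarith
    exact_mod_cast this
  obtain ⟨s, hs⟩ : ∃ s, (wL K L).natDegree + (n + L) + (L + 1) + s + L + 1 = N :=
    ⟨N - ((wL K L).natDegree + (n + L) + (L + 1) + L + 1), by omega⟩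
  have hs2 : 4 * (ε / 5) * N ≤ s := by
    have : ((wL K L).natDegree : ℝ) + (n + L) + (L + 1) + s + L + 1 = N := by exact_mod_cast hs
    linarith
  have hn4 : g.natDegree + (wL K L).natDegree + n < Fintype.card K ^ n := by
    rw [hN]
    have h1 : ((wL K L).natDegree : ℝ) ≤ N := by linarith
    have h2 : (n : ℝ) ≤ N := by linarith
    have h3 : (wL K L).natDegree ≤ N := by exact_mod_cast h1
    have h4 : n ≤ N := by exact_mod_cast h2
    omega
  -- the sieve
  have hcard : g.natDegree + (L + 1) < (L + 1) * Fintype.card K ^ (L + 1) := by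
    rw [hN]
    have h1 : (1 - ε) * N / 2 < (Fintype.card K : ℝ) ^ (L + 1) := by
      have h2 : (Fintype.card K : ℝ) ^ (L + 2) = Fintype.card K * (Fintype.card K : ℝ) ^ (L + 1) := by
        ring
      rw [h2] at hJ1
      have h3 : (1 - ε) * N * ((Fintype.card K : ℝ) / 2) ≤
          (1 - ε) * N * ((Fintype.card K : ℝ) - 1) :=
        mul_le_mul_of_nonneg_left (by linarith) (by positivity)
      have h4 : (Fintype.card K : ℝ) * ((1 - ε) * N / 2) <
          Fintype.card K * (Fintype.card K : ℝ) ^ (L + 1) := by linarith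
      exact lt_of_mul_lt_mul_left h4 (by positivity)
    have h5 : (4 : ℝ) ≤ (1 - ε) * (L + 1) := by
      have h6 : ((J₀ : ℕ) : ℝ) ≤ L + 1 := by
        have : J₀ ≤ L + 1 := by omega
        exact_mod_cast this
      have h7 := (div_le_iff₀ e0).1 (hJ₀1.trans h6)
      linarith
    have h8 : (2 : ℝ) * N < (L + 1) * (Fintype.card K : ℝ) ^ (L + 1) := by
      calc (2 : ℝ) * N = 4 * (N / 2) := by ring
        _ ≤ (1 - ε) * (L + 1) * (N / 2) := mul_le_mul_of_nonneg_right h5 (by positivity)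
        _ = (L + 1) * ((1 - ε) * N / 2) := by ring
        _ < _ := mul_lt_mul_of_pos_left h1 (by positivity)
    have h9 : ((N + (L + 1) : ℕ) : ℝ) < (((L + 1) * Fintype.card K ^ (L + 1) : ℕ) : ℝ) := by
      push_cast
      linarith
    exact_mod_cast h9
  have hr : ∀ t : K[X], Irreducible t → t ∣ g → L + 1 ≤ t.natDegree := by
    intro t ht htg
    have h1 : (N : ℝ) ≤ (Fintype.card K : ℝ) ^ t.natDegree := by
      have := hrough t ht htg
      rw [hN] at this
      exact_mod_cast this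
    have h2 : (Fintype.card K : ℝ) ^ (L + 1) = Fintype.card K * (Fintype.card K : ℝ) ^ L := by
      ring
    rw [h2] at hx
    have h3 : (Fintype.card K : ℝ) * (Fintype.card K : ℝ) ^ L < Fintype.card K * N := by linarith
    have h4 : (Fintype.card K : ℝ) ^ L < N := lt_of_mul_lt_mul_left h3 (by positivity)
    have h5 := h4.trans_le h1
    exact (pow_lt_pow_iff_right₀ (by linarith)).1 h5
  obtain ⟨C, hC, hC2⟩ := cls4 (s₁ := s) hK hg hh hr hcard hn0 hn4 (by omega) hcase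
  refine ⟨C, ?_, fun c hc => ?_⟩
  · rw [hC, hm]
    push_cast
    rw [← Real.rpow_natCast, ← Real.rpow_mul (by positivity), ← Real.rpow_natCast]
    refine Real.rpow_le_rpow_of_exponent_le (by linarith) ?_
    push_cast
    linarith
  · obtain ⟨h6, h7, h8⟩ := hC2 c hc
    refine ⟨h6, h7, fun P hP hdv j hj => ?_⟩
    have h9 := h8 P hP hdv
    rw [hN] at h9 hj
    rw [hm]
    have hjL : j ≤ L + 1 := by
      by_contra h
      have h10 : (Fintype.card K : ℝ) ^ (L + 2) ≤ (Fintype.card K : ℝ) ^ j :=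
        pow_le_pow_right₀ (by linarith) (by omega)
      linarith
    rw [← pow_mul, ← pow_add]
    exact pow_le_pow_right₀ (by linarith) (by omega)

end Pool.Agent.Ff4
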