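import Pool.Agent.Ff2.Final

/-!
Parity of a polynomial whose roots are permuted by Frobenius, over a finite field of
characteristic two; the product of two irreducible polynomials.
-/

set_option autoImplicit false

namespace Pool.Agent.Ff4

open Polynomial Pool.Agent.Ff2

/-- The parity datum: `ε` is the class of the discriminant algebra. -/
def ParD (K E : Type) [Field K] [Fintype K] [Field E] [Algebra K E] (B : K[X]) (N : ℕ)
    (ε : E) : Prop :=
  alp N B ≠ 0 ∧ ∃ z : E, z ^ 2 + z = algebraMap K E (bet N B / alp N B ^ 2) ∧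
    z ^ Fintype.card K = z + ε

theorem par_perm (K : Type) [Field K] [Fintype K] [CharP K 2] (E : Type) [Field E] [Algebra K E]
    (B : K[X]) (N : ℕ) (x : Fin N → E)
    (hx : B.map (algebraMap K E) = ∏ j : Fin N, (X - C (x j))) (hinj : Function.Injective x)
    (σ : Equiv.Perm (Fin N)) (hσ : ∀ i, x i ^ Fintype.card K = x (σ i)) :
    ParD K E B N (if Equiv.Perm.sign σ = 1 then 0 else 1) := by
  haveI : CharP E 2 := charP_of_injective_algebraMap (algebraMap K E).injective 2
  haveI : ExpChar E 2 := ExpChar.prime Nat.prime_two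
  have h2 : (2 : E) = 0 := CharTwo.two_eq_zero
  set A : E := algebraMap K E (alp N B) with hA
  have hAx : A = evP x + odP x := by
    rw [hA, map_alp, hx, alp_prod]
  have hBx : algebraMap K E (bet N B) = evP x * odP x := by
    rw [map_bet, hx, bet_prod]
  have hA0 : A ≠ 0 := by
    have h3 : A = (Matrix.vandermonde x).det := by
      rw [← evP_sub_odP, hAx]
      linear_combination (odP x) * h2
    rw [h3]
    exact Matrix.det_vandermonde_ne_zero_iff.mpr hinj
  refine ⟨fun h0 => hA0 (by rw [hA, h0, map_zero]), evP x / A, ?_, ?_⟩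
  · rw [map_div₀, map_pow, hBx, ← hA]
    field_simp
    rw [hAx]
    linear_combination (evP x ^ 2) * h2
  · obtain ⟨k, hp, hk⟩ := FiniteField.card K 2
    have hφ : ∀ y : E, y ^ Fintype.card K = iterateFrobenius E 2 k y := by
      intro y
      rw [iterateFrobenius_def, hk]
    have hAq : A ^ Fintype.card K = A := by
      rw [hA, ← map_pow, FiniteField.pow_card]
    have hev : evP x ^ Fintype.card K = evP (x ∘ σ) := by
      rw [hφ, map_evP]
      congr 1
      funext i
      rw [Function.comp_apply, Function.comp_apply, ← hφ, hσ]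
    rw [div_pow, hAq, hev, evP_comp]
    split_ifs with hs
    · rw [add_zero]
    · field_simp
      rw [hAx]
      linear_combination (-evP x) * h2

/-- Parity of an irreducible polynomial. -/
theorem par_irr (K : Type) [Field K] [Fintype K] [CharP K 2] (E : Type) [Field E] [Algebra K E]
    [IsAlgClosed E] (F : K[X]) (N : ℕ) (hF : F.Monic) (hi : Irreducible F)
    (hN : F.natDegree = N) : ParD K E F N (if Even N then 1 else 0) :=
  par frob K E F N hF hi hN

/-- Parity of a product of two coprime irreducible polynomials. -/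
theorem par_two (K : Type) [Field K] [Fintype K] [CharP K 2] (E : Type) [Field E] [Algebra K E]
    [IsAlgClosed E] (F G : K[X]) (m n : ℕ) (hF : F.Monic) (hG : G.Monic) (hi : Irreducible F)
    (hj : Irreducible G) (hc : IsCoprime F G) (hm : F.natDegree = m) (hn : G.natDegree = n) :
    ParD K E (F * G) (m + n) (if Even (m + n) then 0 else 1) := by
  obtain ⟨x, hx, hxi, hxf⟩ := frob K E F m hF hi hm
  obtain ⟨y, hy, hyi, hyf⟩ := frob K E G n hG hj hn
  have hm1 : 1 ≤ m := hm ▸ hi.natDegree_pos
  have hn1 : 1 ≤ n := hn ▸ hj.natDegree_pos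
  have hne : ∀ i j, x i ≠ y j := by
    intro i j h
    have h1 : (F.map (algebraMap K E)).eval (x i) = 0 := by
      rw [hx, eval_prod]
      exact Finset.prod_eq_zero (Finset.mem_univ i) (by simp)
    have h2 : (G.map (algebraMap K E)).eval (x i) = 0 := by
      rw [hy, eval_prod]
      exact Finset.prod_eq_zero (Finset.mem_univ j) (by simp [h])
    obtain ⟨a, b, hab⟩ := hc
    have h3 := congrArg (fun p : K[X] => (p.map (algebraMap K E)).eval (x i)) hab
    simp only [Polynomial.map_add, Polynomial.map_mul, eval_add, eval_mul, h1, h2, mul_zero,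
      add_zero, Polynomial.map_one, eval_one] at h3
    exact zero_ne_one h3
  set e : Fin m ⊕ Fin n ≃ Fin (m + n) := finSumFinEquiv with he
  set s : Fin (m + n) → E := Sum.elim x y ∘ e.symm with hs
  set σ : Equiv.Perm (Fin (m + n)) :=
    e.permCongr (Equiv.Perm.sumCongr (finRotate m) (finRotate n)) with hσ
  have hsig : Equiv.Perm.sign σ = (-1) ^ (m - 1) * (-1) ^ (n - 1) := by
    rw [hσ, Equiv.Perm.sign_permCongr, Equiv.Perm.sign_sumCongr, sign_finRotate, sign_finRotate]
  have hp : (F * G).map (algebraMap K E) = ∏ j : Fin (m + n), (X - C (s j)) := by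
    rw [Polynomial.map_mul, hx, hy]
    have h1 : ∏ j : Fin (m + n), (X - C (s j)) =
        ∏ j : Fin m ⊕ Fin n, (X - C (Sum.elim x y j)) := by
      refine (Fintype.prod_equiv e _ _ fun j => ?_).symm
      rw [hs, Function.comp_apply, Equiv.symm_apply_apply]
    rw [h1, Fintype.prod_sum_type]
    rfl
  have hsi : Function.Injective s := by
    apply Function.Injective.comp _ e.symm.injective
    rintro (i | i) (j | j) h
    · exact congrArg Sum.inl (hxi h)
    · exact absurd h (hne i j)
    · exact absurd h.symm (hne j i)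
    · exact congrArg Sum.inr (hyi h)
  have hsf : ∀ i, s i ^ Fintype.card K = s (σ i) := by
    intro i
    obtain ⟨j, rfl⟩ := e.surjective i
    rw [hσ, hs, Function.comp_apply, Function.comp_apply, Equiv.permCongr_apply,
      Equiv.symm_apply_apply, Equiv.symm_apply_apply]
    rcases j with j | j
    · exact hxf j
    · exact hyf j
  have h := par_perm K E (F * G) (m + n) s hp hsi σ hsf
  have hiff : (Equiv.Perm.sign σ = 1) ↔ Even (m + n) := by
    rw [hsig, ← pow_add]
    obtain ⟨a, rfl⟩ : ∃ a, m = a + 1 := ⟨m - 1, by omega⟩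
    obtain ⟨b, rfl⟩ : ∃ b, n = b + 1 := ⟨n - 1, by omega⟩
    rw [Nat.add_sub_cancel, Nat.add_sub_cancel]
    have h1 : Even (a + 1 + (b + 1)) ↔ Even (a + b) := by
      rw [show a + 1 + (b + 1) = a + b + 2 by ring]
      exact Nat.even_add.trans (by simp)
    rw [h1]
    rcases Nat.even_or_odd (a + b) with h2 | h2
    · simp [h2.neg_one_pow, h2]
    · have h3 : ¬ Even (a + b) := Nat.not_even_iff_odd.2 h2
      rw [h2.neg_one_pow]
      exact ⟨fun h4 => absurd h4 (by decide), fun h4 => absurd h4 h3⟩
  simp only [hiff] at h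
  exact h

end Pool.Agent.Ff4
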