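import Pool.Agent.Ff4.Red
import Pool.Agent.Ff3.Main

/-!
Auxiliary lemmas: sieving, an auxiliary prime, lifting of units.
-/

set_option autoImplicit false

namespace Pool.Agent.Ff4

open Polynomial Pool.Agent.Ff2 Pool.Agent.Ff3 UniqueFactorizationMonoid

variable {K : Type} [Field K] [Fintype K]

/-- A polynomial of small degree in a progression avoiding few primes. -/
theorem sieve (ℓ : ℕ) (T : Finset K[X]) (A σ M : K[X])
    (hT : ∀ t ∈ T, Irreducible t ∧ (¬ t ∣ A → ℓ ≤ t.natDegree))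
    (hcard : T.card < Fintype.card K ^ ℓ) :
    ∃ r : Fin ℓ → K, ∀ t ∈ T, ¬ t ∣ A →
      ¬ t ∣ σ + A * (M + ((degreeLTEquiv K ℓ).symm r : K[X])) := by
  classical
  by_contra hcon
  push Not at hcon
  choose f hf1 hf2 hf3 using hcon
  have hc : T.card < (Finset.univ : Finset (Fin ℓ → K)).card := by
    rw [Finset.card_univ, Fintype.card_fun, Fintype.card_fin]
    exact hcard
  obtain ⟨r, _, r', _, hne, heq⟩ := Finset.exists_ne_map_eq_of_card_lt_of_maps_to hc
    (f := f) (fun r _ => hf1 r)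
  have h1 := hf3 r
  have h2 := hf3 r'
  rw [← heq] at h2
  have h3 := dvd_sub h1 h2
  have h4 : σ + A * (M + ((degreeLTEquiv K ℓ).symm r : K[X])) -
      (σ + A * (M + ((degreeLTEquiv K ℓ).symm r' : K[X]))) =
      A * (((degreeLTEquiv K ℓ).symm r : K[X]) - ((degreeLTEquiv K ℓ).symm r' : K[X])) := by ring
  rw [h4] at h3
  have hp := (hT _ (hf1 r)).1.prime
  rcases hp.dvd_or_dvd h3 with h5 | h5
  · exact hf2 r h5
  · have h6 : (((degreeLTEquiv K ℓ).symm r : K[X]) -
        ((degreeLTEquiv K ℓ).symm r' : K[X])).degree < ℓ :=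
      mem_degreeLT.1 (Submodule.sub_mem _ ((degreeLTEquiv K ℓ).symm r).2
        ((degreeLTEquiv K ℓ).symm r').2)
    have h7 : (ℓ : WithBot ℕ) ≤ (f r).degree := by
      rw [degree_eq_natDegree hp.ne_zero]
      exact_mod_cast (hT _ (hf1 r)).2 (hf2 r)
    have h8 := eq_zero_of_dvd_of_degree_lt h5 (h6.trans_le h7)
    apply hne
    exact (degreeLTEquiv K ℓ).symm.injective (Subtype.ext (sub_eq_zero.1 h8))

omit [Fintype K] in
/-- The number of primes dividing a polynomial. -/
theorem card_primes (g : K[X]) (hg : g ≠ 0) (ℓ : ℕ)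
    (h : ∀ t : K[X], Irreducible t → t ∣ g → ℓ ≤ t.natDegree) :
    ∃ T : Finset K[X], ℓ * T.card ≤ g.natDegree ∧ (∀ t ∈ T, Irreducible t ∧ t ∣ g) ∧
      ∀ t : K[X], Irreducible t → t ∣ g → ∃ t' ∈ T, Associated t t' := by
  classical
  refine ⟨(normalizedFactors g).toFinset, ?_, fun t ht => ?_, fun t ht htg => ?_⟩
  · have h1 : g.natDegree = ((normalizedFactors g).map natDegree).sum := by
      rw [← natDegree_multiset_prod _ (zero_notMem_normalizedFactors g)]
      exact natDegree_eq_of_degree_eq (degree_eq_degree_of_associated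
        (prod_normalizedFactors hg).symm)
    have h2 : (normalizedFactors g).card * ℓ ≤ ((normalizedFactors g).map natDegree).sum := by
      have := Multiset.card_nsmul_le_sum (s := (normalizedFactors g).map natDegree) (a := ℓ) (by
        intro x hx
        obtain ⟨t, ht, rfl⟩ := Multiset.mem_map.1 hx
        exact h t (irreducible_of_normalized_factor t ht) (dvd_of_mem_normalizedFactors ht))
      rwa [Multiset.card_map, smul_eq_mul] at this
    have h3 : (normalizedFactors g).toFinset.card ≤ (normalizedFactors g).card :=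
      Multiset.toFinset_card_le _
    calc ℓ * (normalizedFactors g).toFinset.card ≤ ℓ * (normalizedFactors g).card :=
          Nat.mul_le_mul_left _ h3
      _ = (normalizedFactors g).card * ℓ := mul_comm _ _
      _ ≤ g.natDegree := h1 ▸ h2
  · rw [Multiset.mem_toFinset] at ht
    exact ⟨irreducible_of_normalized_factor t ht, dvd_of_mem_normalizedFactors ht⟩
  · obtain ⟨q, hq, ha⟩ := exists_mem_normalizedFactors_of_dvd hg ht htg
    exact ⟨q, Multiset.mem_toFinset.2 hq, ha⟩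

/-- A prime not dividing a given polynomial. -/
theorem exists_prime [CharP K 2] (hK2 : 2 ∣ Fintype.card K) (G : K[X]) (hG : G ≠ 0) (n : ℕ)
    (hn : n ≠ 0) (h : G.natDegree < Fintype.card K ^ n) :
    ∃ p : K[X], Irreducible p ∧ p.natDegree ≤ n ∧ ¬ p ∣ G := by
  classical
  obtain ⟨m, rfl⟩ := Nat.exists_eq_succ_of_ne_zero hn
  obtain ⟨hQm, hQd⟩ := deg_factor K m
  have hsq : Squarefree (X ^ (Fintype.card K ^ (m + 1)) - X : K[X]) :=
    (galois_poly_separable 2 _ (dvd_pow hK2 (Nat.succ_ne_zero m))).squarefree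
  obtain ⟨Q, hQ⟩ : ∃ Q, Q = (X ^ (Fintype.card K ^ (m + 1)) - X : K[X]) := ⟨_, rfl⟩
  rw [← hQ] at hQm hQd hsq
  by_contra hcon
  push Not at hcon
  have h1 : ∀ t : K[X], Irreducible t → t ∣ Q → t ∣ G := by
    intro t ht htQ
    apply hcon t ht
    have h2 : t.natDegree ∣ m + 1 := by
      rw [ht.natDegree_dvd_iff_dvd_X_pow_card_pow_sub_X, Nat.card_eq_fintype_card, ← hQ]
      exact htQ
    exact Nat.le_of_dvd (Nat.succ_pos m) h2
  have h2 : Q ∣ G := by
    obtain ⟨e, he⟩ := EuclideanDomain.gcd_dvd_left Q G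
    have hu : IsUnit e := by
      by_contra hu
      have he0 : e ≠ 0 := by
        rintro rfl
        rw [mul_zero] at he
        exact hQm.ne_zero he
      obtain ⟨t, ht, hte⟩ := WfDvdMonoid.exists_irreducible_factor hu he0
      have htQ : t ∣ Q := he ▸ (hte.mul_left _)
      have h3 : t ∣ EuclideanDomain.gcd Q G := EuclideanDomain.dvd_gcd htQ (h1 t ht htQ)
      have h4 : t * t ∣ Q := by
        rw [he]
        exact mul_dvd_mul h3 hte
      exact ht.not_isUnit (hsq t h4)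
    have h5 : Q ∣ EuclideanDomain.gcd Q G := by
      conv_lhs => rw [he]
      exact (hu.mul_right_dvd).2 dvd_rfl
    exact h5.trans (EuclideanDomain.gcd_dvd_right Q G)
  have h3 := natDegree_le_of_dvd h2 hG
  rw [Nat.succ_eq_add_one, ← hQd] at h
  omega

/-- Fourth roots modulo a prime. -/
theorem fourth [CharP K 2] (p W y : K[X]) (hp : Irreducible p) (hW : ¬ p ∣ W) :
    ∃ s : K[X], s.natDegree < p.natDegree ∧ p ∣ (W * s) ^ 4 + y := by
  have : Fact (Irreducible p) := ⟨hp⟩
  have hfin : Module.Finite K (AdjoinRoot p) := (AdjoinRoot.powerBasis hp.ne_zero).finite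
  have hf2 : Finite (AdjoinRoot p) := Module.finite_of_finite K
  have hf3 : Fintype (AdjoinRoot p) := Fintype.ofFinite _
  have hch : CharP (AdjoinRoot p) 2 :=
    charP_of_injective_algebraMap (algebraMap K (AdjoinRoot p)).injective 2
  obtain ⟨b, hb⟩ := red_root (AdjoinRoot.mk p y)
  have hW0 : AdjoinRoot.mk p W ≠ 0 := by
    rw [Ne, AdjoinRoot.mk_eq_zero]
    exact hW
  obtain ⟨s, hs⟩ := AdjoinRoot.mk_surjective (b / AdjoinRoot.mk p W)
  refine ⟨s % p, ?_, ?_⟩
  · exact natDegree_mod_lt _ hp.natDegree_pos.ne'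
  · rw [← AdjoinRoot.mk_eq_zero, map_add, map_pow, map_mul]
    have h1 : AdjoinRoot.mk p (s % p) = AdjoinRoot.mk p s := by
      rw [AdjoinRoot.mk_eq_mk]
      have := EuclideanDomain.mod_add_div s p
      exact ⟨-(s / p), by linear_combination this⟩
    rw [h1, hs, mul_div_cancel₀ _ hW0, hb]
    exact CharTwo.add_self_eq_zero _

/-- The multiple of the small primes other than `π`. -/
theorem exists_W (L : ℕ) (π : K[X]) (hπ : Irreducible π) :
    ∃ W : K[X], W ≠ 0 ∧ W ∣ wL K L ∧ ¬ π ∣ W ∧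
      ∀ a : K[X], a ≠ 0 → a.natDegree ≤ L → IsCoprime a π → a ∣ W := by
  have h0 : wL K L ≠ 0 := (deg K L).1.ne_zero
  obtain ⟨n, W, hW, hn⟩ := WfDvdMonoid.max_power_factor h0 hπ
  refine ⟨W, ?_, ⟨π ^ n, by rw [hn]; ring⟩, hW, fun a ha haL hac => ?_⟩
  · rintro rfl
    exact hW (dvd_zero _)
  · have h1 : a ∣ π ^ n * W := hn ▸ lcm K L a ha haL
    exact (hac.pow_right).dvd_of_dvd_mul_left h1

/-- A polynomial without small prime factors is coprime to `wL`. -/
theorem coprime_wL (L : ℕ) (g : K[X]) (hg : g ≠ 0)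
    (h : ∀ t : K[X], Irreducible t → t ∣ g → L + 1 ≤ t.natDegree) : IsCoprime g (wL K L) := by
  refine isCoprime_of_irreducible_dvd (fun h0 => hg h0.1) fun t ht h1 h2 => ?_
  unfold wL at h2
  obtain ⟨i, hi, h3⟩ := (Prime.dvd_finsetProd_iff ht.prime _).1 h2
  have h4 : t.natDegree ∣ i + 1 := by
    rw [ht.natDegree_dvd_iff_dvd_X_pow_card_pow_sub_X, Nat.card_eq_fintype_card]
    exact h3
  have h5 := Nat.le_of_dvd (Nat.succ_pos i) h4
  have h6 := h t ht h1
  have h7 := Finset.mem_range.1 hi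
  omega

omit [Fintype K] in
/-- A class prime to a divisor of the modulus contains a class prime to the modulus. -/
theorem lift_unit (c₀ m₀ h : K[X]) (hc : IsCoprime c₀ m₀) (hh : h ≠ 0) :
    ∃ t : K[X], IsCoprime (c₀ + m₀ * t) h := by
  classical
  obtain ⟨S, hS⟩ : ∃ S : Finset K[X],
      S = (normalizedFactors h).toFinset.filter (fun r => ¬ r ∣ c₀) := ⟨_, rfl⟩
  have hmem : ∀ r : K[X], r ∈ S ↔ r ∈ normalizedFactors h ∧ ¬ r ∣ c₀ := by
    intro r
    rw [hS, Finset.mem_filter, Multiset.mem_toFinset]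
  clear hS
  obtain ⟨t, ht⟩ : ∃ t : K[X], t = ∏ r ∈ S, r := ⟨_, rfl⟩
  have ht1 : ∀ r ∈ S, r ∣ t := fun r hr => ht ▸ Finset.dvd_prod_of_mem (fun r => r) hr
  have ht2 : ∀ z : K[X], Irreducible z → z ∣ t → ∃ r ∈ S, z ∣ r := by
    intro z hz hzt
    rw [ht] at hzt
    exact (Prime.dvd_finsetProd_iff hz.prime _).1 hzt
  clear ht
  refine ⟨t, isCoprime_of_irreducible_dvd (fun h0 => hh h0.2) fun z hz h1 h2 => ?_⟩
  obtain ⟨r, hr, hzr⟩ := exists_mem_normalizedFactors_of_dvd hh hz h2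
  by_cases hzc : z ∣ c₀
  · have h3 : z ∣ m₀ * t := (dvd_add_right hzc).1 h1
    rcases hz.prime.dvd_or_dvd h3 with h4 | h4
    · exact hz.not_isUnit (hc.isUnit_of_dvd' hzc h4)
    · obtain ⟨r', hr', h5⟩ := ht2 z hz h4
      rw [hmem] at hr'
      have h6 : Associated z r' :=
        hz.associated_of_dvd (irreducible_of_normalized_factor r' hr'.1) h5
      exact hr'.2 (h6.symm.dvd.trans hzc)
  · have h3 : r ∈ S := (hmem r).2 ⟨hr, fun h4 => hzc (hzr.dvd.trans h4)⟩
    have h4 : z ∣ m₀ * t := (hzr.dvd.trans (ht1 r h3)).mul_left _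
    exact hzc ((dvd_add_left h4).1 h1)

end Pool.Agent.Ff4
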